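import Mathlib

set_option autoImplicit false

/-!
# States, runs and relations

A *state* on the subsets of a vertex set is a function `D : Finset V → ℝ` with values in `(0, 1]`
and increasing under inclusion; `D {x}` is the weight of `x`.  Running the set `S` with price
`t ∈ (0, 1]` multiplies `D e` by `t` for all `e ⊆ S`.
-/

namespace Pool.Agent.H12.Mader

open Finset

variable {V : Type} [DecidableEq V]

/-- The antiderivative of `H u / u`. -/
noncomputable def hh (H : ℝ → ℝ) (y : ℝ) : ℝ := ∫ u in (0 : ℝ)..y, H u / u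

/-- Total weight of a set. -/
noncomputable def wt (D : Finset V → ℝ) (S : Finset V) : ℝ := ∑ x ∈ S, D {x}

/-- Run the set `S` with price `t`. -/
noncomputable def run (S : Finset V) (t : ℝ) (D : Finset V → ℝ) : Finset V → ℝ :=
  fun e => if e ⊆ S then t * D e else D e

/-- States. -/
structure State (D : Finset V → ℝ) : Prop where
  pos : ∀ e, 0 < D e
  le_one : ∀ e, D e ≤ 1
  mono : ∀ e f, e ⊆ f → D e ≤ D f

/-- Reachable states `D` with the accumulated cost `Y`, for the scaling parameter `M`. -/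
inductive Reach (h : ℝ → ℝ) (M : ℝ) (U : Finset V) : (Finset V → ℝ) → ℝ → Prop
  | init : Reach h M U (fun _ => 1) 0
  | step {D : Finset V → ℝ} {Y : ℝ} (S : Finset V) (t : ℝ) : Reach h M U D Y → S ⊆ U → 0 < t →
      t ≤ 1 → Reach h M U (run S t D) (Y + M * (h (wt D S / M) - h (t * wt D S / M)))

/-- Relation between the state `D` of the parent and the state `D'` of the child `Z ∪ X`
(`Z` the separator), with threshold `p` and price `π` for the separator. -/
structure Rel (Z X : Finset V) (p π : ℝ) (D D' : Finset V → ℝ) : Prop where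
  z : ∀ e, e ⊆ Z → D' e = π * D e
  le : ∀ e, e ⊆ Z ∪ X → ¬ e ⊆ Z → p * D' e ≤ D e
  sing : ∀ x ∈ X, D' {x} = min 1 (D {x} / p)

/-- The set that is run in the child when `S` is run in the parent. -/
noncomputable def low (Z X : Finset V) (p : ℝ) (D : Finset V → ℝ) (S : Finset V) : Finset V :=
  (S ∩ Z) ∪ (S ∩ X).filter (fun x => D {x} ≤ p)

/-- Total cost. -/
noncomputable def CC (r : ℕ) (U : Finset V) (D : Finset V → ℝ) : ℝ :=
  ∑ e ∈ powersetCard r U, (1 - D e)

/-- The `r`-sets inside `A ∪ B` that meet both `A` and `B`. -/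
def cross (r : ℕ) (A B : Finset V) : Finset (Finset V) :=
  (powersetCard r (A ∪ B)).filter (fun e => ¬ e ⊆ A ∧ ¬ e ⊆ B)

/-- State function of one vertex. -/
noncomputable def om (H : ℝ → ℝ) (r s : ℕ) (p u : ℝ) : ℝ :=
  if p ≤ u then (p * (hh H (s * u / p) - hh H s) - (s.choose r : ℝ) * (u - p)) / s else 0

/-- State function of a side. -/
noncomputable def Om (H : ℝ → ℝ) (r : ℕ) (X : Finset V) (p : ℝ) (D : Finset V → ℝ) : ℝ :=
  ∑ x ∈ X, om H r X.card p (D {x})

/-- The quantity that is nondecreasing along the evolution. -/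
noncomputable def Gap (H : ℝ → ℝ) (r : ℕ) (Z A B : Finset V) (pA pB : ℝ)
    (D : Finset V → ℝ) (Y : ℝ) (DA : Finset V → ℝ) (YA : ℝ) (DB : Finset V → ℝ) (YB : ℝ) : ℝ :=
  CC r (Z ∪ A ∪ B) D - Y - ∑ e ∈ cross r A B, (1 - D e) - pA * (CC r (Z ∪ A) DA - YA) -
    pB * (CC r (Z ∪ B) DB - YB) - Om H r A pA D - Om H r B pB D

end Pool.Agent.H12.Mader
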