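import Mathlib

set_option autoImplicit false

/-!
# The comparison function `H`

For `r ≥ 3` and `N` there is a `C¹` function `H : ℝ → ℝ` with `H n = C(n, r)` for natural `n ≤ N`,
`H = 0` on `(-∞, r - 1]`, `H` convex, and all differences `y ↦ H (z + y) - H y`, `z ≥ 0`, convex.
-/

namespace Pool.Agent.H12.Mader

open Finset

/-- The properties of the comparison function. -/
structure Fn (r N : ℕ) (H : ℝ → ℝ) : Prop where
  nat : ∀ n : ℕ, n ≤ N → H n = (n.choose r : ℝ)
  zero : ∀ y : ℝ, y ≤ (r : ℝ) - 1 → H y = 0
  cont : Continuous H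
  cvx : ConvexOn ℝ Set.univ H
  cvx2 : ∀ z : ℝ, 0 ≤ z → ConvexOn ℝ Set.univ (fun y => H (z + y) - H y)

/-- The coefficients. -/
def cf : ℕ → ℕ → ℕ
  | 0, a => if a % 2 = 0 ∧ 2 ≤ a then 2 else 0
  | (j + 1), a => ∑ b ∈ range a, cf j b

theorem cf_zero (j : ℕ) : ∀ a, a ≤ j + 1 → cf j a = 0 := by
  induction j with
  | zero =>
    intro a ha
    simp only [cf]
    rw [if_neg]
    omega
  | succ j ih =>
    intro a ha
    simp only [cf]
    apply Finset.sum_eq_zero
    intro b hb
    rw [mem_range] at hb
    exact ih b (by omega)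

/-- The discrete values. -/
theorem cf_sum (j : ℕ) : ∀ n : ℕ,
    ∑ a ∈ range n, (cf j a : ℝ) * ((n : ℝ) - a) ^ 2 / 2 = (n.choose (j + 3) : ℝ) := by
  induction j with
  | zero =>
    intro n
    induction n using Nat.strong_induction_on with
    | _ n ih =>
      match n with
      | 0 => simp
      | 1 =>
        have : Nat.choose 1 (0 + 3) = 0 := by decide
        rw [this]
        simp [cf]
      | (n + 2) =>
        have h := ih n (by omega)
        rw [Finset.sum_range_succ', Finset.sum_range_succ']
        have e1 : (cf 0 (0 + 1) : ℝ) = 0 := by simp [cf]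
        have e2 : (cf 0 0 : ℝ) = 0 := by simp [cf]
        rw [e1, e2]
        have key : ∀ m : ℕ, ∑ a ∈ range m, (cf 0 (a + 1 + 1) : ℝ) * (((n + 2 : ℕ) : ℝ) - ((a + 1 + 1 : ℕ) : ℝ)) ^ 2 / 2
            = ∑ a ∈ range m, (cf 0 a : ℝ) * ((n : ℝ) - a) ^ 2 / 2 + (if 0 < m then (n : ℝ) ^ 2 else 0) := by
          intro m
          induction m with
          | zero => simp
          | succ m ihm =>
            rw [Finset.sum_range_succ, Finset.sum_range_succ, ihm]
            rcases Nat.eq_zero_or_pos m with rfl | hm
            · simp [cf]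
            · have : cf 0 (m + 1 + 1) = cf 0 m := by
                simp only [cf]
                by_cases hc : m % 2 = 0
                · rw [if_pos (by omega), if_pos (by omega)]
                · rw [if_neg (by omega), if_neg (by omega)]
              rw [this, if_pos hm, if_pos (Nat.succ_pos m)]
              push_cast
              ring
        rw [key n, h]
        rcases Nat.eq_zero_or_pos n with rfl | hn
        · simp
        · rw [if_pos hn]
          have h3 : (n + 2).choose 3 = n.choose 3 + 2 * n.choose 2 + n := by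
            rw [show n + 2 = (n + 1) + 1 from rfl, Nat.choose_succ_succ, Nat.choose_succ_succ,
              Nat.choose_succ_succ n 2]
            simp
            ring
          have h4 : (n.choose 2 : ℝ) = (n : ℝ) * (n - 1) / 2 := Nat.cast_choose_two ℝ n
          have h3' : ((n + 2).choose (0 + 3) : ℝ) = (n.choose 3 : ℝ) + 2 * (n.choose 2 : ℝ) + n := by
            exact_mod_cast h3
          rw [h3', h4]
          push_cast
          ring
  | succ j ih =>
    intro n
    induction n with
    | zero => simp
    | succ n ihn =>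
      rw [Finset.sum_range_succ']
      have e0 : (cf (j + 1) 0 : ℝ) = 0 := by simp [cf]
      rw [e0]
      have h1 : ∀ a : ℕ, (cf (j + 1) (a + 1) : ℝ) = (cf (j + 1) a : ℝ) + (cf j a : ℝ) := by
        intro a
        have : cf (j + 1) (a + 1) = cf (j + 1) a + cf j a := by
          simp only [cf]
          exact Finset.sum_range_succ _ _
        exact_mod_cast this
      have h2 : ∑ a ∈ range n, (cf (j + 1) (a + 1) : ℝ) * (((n + 1 : ℕ) : ℝ) - ((a + 1 : ℕ) : ℝ)) ^ 2 / 2
          = ∑ a ∈ range n, (cf (j + 1) a : ℝ) * ((n : ℝ) - a) ^ 2 / 2 +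
            ∑ a ∈ range n, (cf j a : ℝ) * ((n : ℝ) - a) ^ 2 / 2 := by
        rw [← Finset.sum_add_distrib]
        apply Finset.sum_congr rfl
        intro a _
        rw [h1]
        push_cast
        ring
      rw [h2, ihn, ih n]
      have h5 : (n + 1).choose (j + 1 + 3) = n.choose (j + 1 + 3) + n.choose (j + 3) := by
        rw [show j + 1 + 3 = (j + 3) + 1 by ring, Nat.choose_succ_succ]
        ring
      have h5' : ((n + 1).choose (j + 1 + 3) : ℝ) =
          (n.choose (j + 1 + 3) : ℝ) + (n.choose (j + 3) : ℝ) := by exact_mod_cast h5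
      rw [h5']
      ring

/-- The basis functions. -/
noncomputable def bf (a y : ℝ) : ℝ := (max (y - a) 0) ^ 2 / 2

theorem bf_hasDerivAt (a y : ℝ) : HasDerivAt (bf a) (max (y - a) 0) y := by
  rw [hasDerivAt_iff_isLittleO]
  have hb : ∀ x : ℝ, |bf a x - bf a y - (x - y) * max (y - a) 0| ≤ (x - y) ^ 2 := by
    intro x
    unfold bf
    rw [abs_le]
    rcases le_total (x - a) 0 with h1 | h1 <;> rcases le_total (y - a) 0 with h2 | h2
    · rw [max_eq_right h1, max_eq_right h2]; constructor <;> nlinarith
    · rw [max_eq_right h1, max_eq_left h2]; constructor <;> nlinarith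
    · rw [max_eq_left h1, max_eq_right h2]; constructor <;> nlinarith
    · rw [max_eq_left h1, max_eq_left h2]; constructor <;> nlinarith
  have h3 : (fun x => (x - y) ^ 2) =o[nhds y] fun x => x - y := by
    have h4 : Filter.Tendsto (fun x : ℝ => x - y) (nhds y) (nhds 0) := by
      have : Continuous fun x : ℝ => x - y := by fun_prop
      have h5 := this.tendsto y
      simpa using h5
    have h6 : (fun x : ℝ => x - y) =o[nhds y] (fun _ : ℝ => (1 : ℝ)) := by
      rw [Asymptotics.isLittleO_one_iff]
      exact h4
    have h7 := (Asymptotics.isBigO_refl (fun x : ℝ => x - y) (nhds y)).mul_isLittleO h6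
    simpa [pow_two] using h7
  refine (Asymptotics.IsBigO.of_bound 1 ?_).trans_isLittleO h3
  filter_upwards with x
  rw [smul_eq_mul, Real.norm_eq_abs, Real.norm_eq_abs, one_mul, abs_of_nonneg (sq_nonneg (x - y))]
  exact hb x

theorem bf_cont (a : ℝ) : Continuous (bf a) := by
  unfold bf
  fun_prop

theorem bf_cvx (a : ℝ) : ConvexOn ℝ Set.univ (bf a) := by
  apply Monotone.convexOn_univ_of_deriv (fun y => (bf_hasDerivAt a y).differentiableAt)
  intro x y hxy
  rw [(bf_hasDerivAt a x).deriv, (bf_hasDerivAt a y).deriv]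
  exact max_le_max (by linarith) le_rfl

theorem bf_cvx2 (a z : ℝ) (hz : 0 ≤ z) :
    ConvexOn ℝ Set.univ (fun y => bf a (z + y) - bf a y) := by
  have hd : ∀ y, HasDerivAt (fun y => bf a (z + y) - bf a y)
      (max (z + y - a) 0 - max (y - a) 0) y := by
    intro y
    exact ((bf_hasDerivAt a (z + y)).comp_const_add z y).sub (bf_hasDerivAt a y)
  apply Monotone.convexOn_univ_of_deriv (fun y => (hd y).differentiableAt)
  intro x y hxy
  rw [(hd x).deriv, (hd y).deriv]
  rcases le_total (x - a) 0 with h1 | h1 <;> rcases le_total (y - a) 0 with h2 | h2 <;>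
    rcases le_total (z + x - a) 0 with h3 | h3 <;> rcases le_total (z + y - a) 0 with h4 | h4 <;>
    simp only [max_eq_left, max_eq_right, h1, h2, h3, h4] <;> linarith

/-- Existence of the comparison function. -/
theorem exists_fn (r N : ℕ) (hr : 3 ≤ r) : ∃ H : ℝ → ℝ, Fn r N H := by
  obtain ⟨j, rfl⟩ : ∃ j, r = j + 3 := ⟨r - 3, by omega⟩
  refine ⟨fun y => ∑ a ∈ range N, (cf j a : ℝ) * bf a y, ?_, ?_, ?_, ?_, ?_⟩
  · intro n hn
    have h1 : ∑ a ∈ range N, (cf j a : ℝ) * bf a n = ∑ a ∈ range n, (cf j a : ℝ) * bf a n := by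
      symm
      apply Finset.sum_subset (Finset.range_mono hn)
      intro a _ ha
      rw [mem_range, not_lt] at ha
      have : (n : ℝ) ≤ a := by exact_mod_cast ha
      unfold bf
      rw [max_eq_right (by linarith)]
      simp
    show ∑ a ∈ range N, (cf j a : ℝ) * bf a n = _
    rw [h1, ← cf_sum j n]
    apply Finset.sum_congr rfl
    intro a ha
    rw [mem_range] at ha
    have : (a : ℝ) ≤ n := by exact_mod_cast ha.le
    unfold bf
    rw [max_eq_left (by linarith)]
    ring
  · intro y hy
    apply Finset.sum_eq_zero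
    intro a _
    by_cases ha : a ≤ j + 1
    · rw [cf_zero j a ha]; simp
    · have h1 : ((j : ℝ) + 3) - 1 ≤ a := by
        have : j + 2 ≤ a := by omega
        have : ((j : ℝ) + 2) ≤ a := by exact_mod_cast this
        linarith
      push_cast at hy
      unfold bf
      rw [max_eq_right (by linarith)]
      simp
  · apply continuous_finsetSum
    intro a _
    exact (bf_cont a).const_mul _ 
  · have : ∀ s : Finset ℕ, ConvexOn ℝ Set.univ (fun y => ∑ a ∈ s, (cf j a : ℝ) * bf a y) := by
      intro s
      induction s using Finset.induction_on with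
      | empty => simpa using convexOn_const (0 : ℝ) convex_univ
      | insert a s ha ih =>
        have h1 : (fun y => ∑ b ∈ insert a s, (cf j b : ℝ) * bf b y) =
            (fun y => (cf j a : ℝ) * bf a y) + fun y => ∑ b ∈ s, (cf j b : ℝ) * bf b y := by
          funext y
          rw [Pi.add_apply, Finset.sum_insert ha]
        rw [h1]
        exact ((bf_cvx a).smul (Nat.cast_nonneg (cf j a))).add ih
    exact this _
  · intro z hz
    have : ∀ s : Finset ℕ, ConvexOn ℝ Set.univ
        (fun y => ∑ a ∈ s, (cf j a : ℝ) * bf a (z + y) - ∑ a ∈ s, (cf j a : ℝ) * bf a y) := by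
      intro s
      induction s using Finset.induction_on with
      | empty => simpa using convexOn_const (0 : ℝ) convex_univ
      | insert a s ha ih =>
        have h1 : (fun y => ∑ b ∈ insert a s, (cf j b : ℝ) * bf b (z + y) -
              ∑ b ∈ insert a s, (cf j b : ℝ) * bf b y) =
            (fun y => (cf j a : ℝ) * (bf a (z + y) - bf a y)) +
              fun y => ∑ b ∈ s, (cf j b : ℝ) * bf b (z + y) - ∑ b ∈ s, (cf j b : ℝ) * bf b y := by
          funext y
          rw [Pi.add_apply, Finset.sum_insert ha, Finset.sum_insert ha]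
          ring
        rw [h1]
        exact ((bf_cvx2 a z hz).smul (Nat.cast_nonneg (cf j a))).add ih
    exact this _

end Pool.Agent.H12.Mader
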