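import Mathlib
import Pool.Agent.H12.Mader.Fn
import Pool.Agent.H12.Mader.Defs

set_option autoImplicit false

namespace Pool.Agent.H12.Mader

open Finset

variable {r N : ℕ} {H : ℝ → ℝ}

/-- Increasing increments of a convex function. -/
theorem cvx_inc {f : ℝ → ℝ} (hf : ConvexOn ℝ Set.univ f) {a b d : ℝ} (hab : a ≤ b) (hd : 0 ≤ d) :
    f (a + d) - f a ≤ f (b + d) - f b := by
  rcases eq_or_lt_of_le hd with rfl | hd'
  · simp
  have hL : 0 < b + d - a := by linarith
  have hl : 0 ≤ (b - a) / (b + d - a) := div_nonneg (by linarith) hL.le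
  have hm : 0 ≤ d / (b + d - a) := div_nonneg hd hL.le
  have hs : (b - a) / (b + d - a) + d / (b + d - a) = 1 := by
    rw [← add_div]
    rw [div_eq_one_iff_eq hL.ne']
    ring
  have h1 := hf.2 (Set.mem_univ a) (Set.mem_univ (b + d)) hl hm hs
  have h2 := hf.2 (Set.mem_univ a) (Set.mem_univ (b + d)) hm hl (by rw [add_comm]; exact hs)
  have e1 : ((b - a) / (b + d - a)) • a + (d / (b + d - a)) • (b + d) = a + d := by
    simp only [smul_eq_mul]
    field_simp
    ring
  have e2 : (d / (b + d - a)) • a + ((b - a) / (b + d - a)) • (b + d) = b := by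
    simp only [smul_eq_mul]
    field_simp
    ring
  rw [e1] at h1
  rw [e2] at h2
  simp only [smul_eq_mul] at h1 h2
  have h3 : (b - a) / (b + d - a) * f a + d / (b + d - a) * f a = f a := by
    rw [← add_mul, hs, one_mul]
  have h4 : (b - a) / (b + d - a) * f (b + d) + d / (b + d - a) * f (b + d) = f (b + d) := by
    rw [← add_mul, hs, one_mul]
  linarith

/-- Jensen for two points. -/
theorem cvx_jensen {f : ℝ → ℝ} (hf : ConvexOn ℝ Set.univ f) {a b : ℝ} (ha : 0 < a) (hb : 0 < b)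
    (x y : ℝ) : (a + b) * f ((x + y) / (a + b)) ≤ a * f (x / a) + b * f (y / b) := by
  have hab : 0 < a + b := by linarith
  have h1 := hf.2 (Set.mem_univ (x / a)) (Set.mem_univ (y / b)) (div_nonneg ha.le hab.le)
    (div_nonneg hb.le hab.le) (by rw [← add_div]; exact div_self hab.ne')
  have e1 : (a / (a + b)) • (x / a) + (b / (a + b)) • (y / b) = (x + y) / (a + b) := by
    simp only [smul_eq_mul]
    field_simp
  rw [e1] at h1
  simp only [smul_eq_mul] at h1
  calc (a + b) * f ((x + y) / (a + b))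
      ≤ (a + b) * (a / (a + b) * f (x / a) + b / (a + b) * f (y / b)) :=
        mul_le_mul_of_nonneg_left h1 hab.le
    _ = a * f (x / a) + b * f (y / b) := by
        field_simp

/-- Scaling for a convex function vanishing at zero. -/
theorem cvx_scale {f : ℝ → ℝ} (hf : ConvexOn ℝ Set.univ f) (h0 : f 0 = 0) {t y : ℝ}
    (ht : 0 ≤ t) (ht1 : t ≤ 1) : f (t * y) ≤ t * f y := by
  have h1 := hf.2 (Set.mem_univ y) (Set.mem_univ 0) ht (sub_nonneg.2 ht1) (by ring)
  simp only [smul_eq_mul, mul_zero, add_zero, h0] at h1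
  exact h1

theorem Fn.at_zero (hF : Fn r N H) (hr : 3 ≤ r) : H 0 = 0 := by
  apply hF.zero
  have : (3 : ℝ) ≤ r := by exact_mod_cast hr
  linarith

theorem Fn.mono (hF : Fn r N H) (hr : 3 ≤ r) : Monotone H := by
  intro x y hxy
  have h1 := cvx_inc hF.cvx (min_le_left x ((r : ℝ) - 1 - (y - x))) (sub_nonneg.2 hxy)
  have h2 : min x ((r : ℝ) - 1 - (y - x)) ≤ (r : ℝ) - 1 - (y - x) := min_le_right _ _
  rw [hF.zero (min x ((r : ℝ) - 1 - (y - x)) + (y - x)) (by linarith),
    hF.zero (min x ((r : ℝ) - 1 - (y - x))) (by linarith)] at h1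
  have h3 : x + (y - x) = y := by ring
  rw [h3] at h1
  linarith

theorem Fn.nonneg (hF : Fn r N H) (hr : 3 ≤ r) (y : ℝ) : 0 ≤ H y := by
  have h1 := hF.mono hr (min_le_left y ((r : ℝ) - 1))
  rw [hF.zero _ (min_le_right _ _)] at h1
  exact h1

/-- Increasing increments. -/
theorem Fn.inc (hF : Fn r N H) {a b d : ℝ} (hab : a ≤ b) (hd : 0 ≤ d) :
    H (a + d) - H a ≤ H (b + d) - H b := cvx_inc hF.cvx hab hd

theorem Fn.scale (hF : Fn r N H) (hr : 3 ≤ r) {t y : ℝ} (h0 : 0 ≤ t) (h1 : t ≤ 1) (hy : 0 ≤ y) :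
    H (t * y) ≤ t * H y := cvx_scale hF.cvx (hF.at_zero hr) h0 h1

theorem hquot_cont (hF : Fn r N H) (hr : 3 ≤ r) : Continuous (fun u => H u / u) := by
  rw [continuous_iff_continuousAt]
  intro u
  by_cases hu : u = 0
  · subst hu
    have h3 : (3 : ℝ) ≤ r := by exact_mod_cast hr
    have h1 : (fun u => H u / u) =ᶠ[nhds (0 : ℝ)] fun _ => (0 : ℝ) := by
      filter_upwards [Iio_mem_nhds (show (0 : ℝ) < 1 by norm_num)] with u hu
      rw [hF.zero u (by have : u < 1 := hu; linarith), zero_div]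
    exact (continuousAt_const).congr h1.symm
  · exact (hF.cont.continuousAt).div continuousAt_id hu

theorem hh_hasDerivAt (hF : Fn r N H) (hr : 3 ≤ r) (y : ℝ) : HasDerivAt (hh H) (H y / y) y :=
  ((hquot_cont hF hr).integral_hasStrictDerivAt 0 y).hasDerivAt

theorem hh_zero (hF : Fn r N H) {y : ℝ} (h0 : 0 ≤ y) (hy : y ≤ (r : ℝ) - 1) :
    hh H y = 0 := by
  unfold hh
  rw [intervalIntegral.integral_congr (g := fun _ => (0 : ℝ))]
  · simp
  · intro u hu
    rw [Set.uIcc_of_le h0] at hu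
    show H u / u = 0
    rw [hF.zero u (by linarith [hu.2]), zero_div]

theorem hquot_mono (hF : Fn r N H) (hr : 3 ≤ r) {u y : ℝ} (hu : 0 < u) (huy : u ≤ y) :
    H u / u ≤ H y / y := by
  have hy : 0 < y := by linarith
  have h1 := hF.scale hr (t := u / y) (y := y) (by positivity) ((div_le_one hy).2 huy) hy.le
  have h2 : u / y * y = u := by field_simp
  rw [h2] at h1
  rw [div_le_div_iff₀ hu hy]
  have h3 : u / y * H y * y = H y * u := by field_simp
  calc H u * y ≤ u / y * H y * y := mul_le_mul_of_nonneg_right h1 hy.le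
    _ = H y * u := h3

/-- `h (t y) ≥ h y - (1 - t) H y`. -/
theorem hh_diff_le (hF : Fn r N H) (hr : 3 ≤ r) {y t : ℝ} (hy : 0 ≤ y) (h0 : 0 < t) (h1 : t ≤ 1) :
    hh H y - hh H (t * y) ≤ (1 - t) * H y := by
  rcases eq_or_lt_of_le hy with rfl | hy'
  · rw [hF.at_zero hr]; simp
  have hd : Differentiable ℝ (hh H) := fun x => (hh_hasDerivAt hF hr x).differentiableAt
  have hty : t * y ≤ y := by nlinarith
  have h2 := Convex.image_sub_le_mul_sub_of_deriv_le (convex_Icc (t * y) y)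
    hd.continuous.continuousOn hd.differentiableOn (C := H y / y) (by
      intro x hx
      rw [interior_Icc] at hx
      rw [(hh_hasDerivAt hF hr x).deriv]
      have : 0 < t * y := by positivity
      exact hquot_mono hF hr (by linarith [hx.1]) hx.2.le)
    (t * y) (Set.left_mem_Icc.2 hty) y (Set.right_mem_Icc.2 hty) hty
  have h3 : H y / y * (y - t * y) = (1 - t) * H y := by field_simp
  rw [h3] at h2
  exact h2

theorem hh_sub_ge (hF : Fn r N H) (hr : 3 ≤ r) {s v : ℝ} (hs : 0 < s) (hv : s ≤ v) :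
    H s / s * (v - s) ≤ hh H v - hh H s := by
  have hd : Differentiable ℝ (hh H) := fun x => (hh_hasDerivAt hF hr x).differentiableAt
  exact Convex.mul_sub_le_image_sub_of_le_deriv (convex_Icc s v)
    hd.continuous.continuousOn hd.differentiableOn (C := H s / s) (by
      intro x hx
      rw [interior_Icc] at hx
      rw [(hh_hasDerivAt hF hr x).deriv]
      exact hquot_mono hF hr hs hx.1.le)
    s (Set.left_mem_Icc.2 hv) v (Set.right_mem_Icc.2 hv) hv

/-- Jensen for two points. -/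
theorem Fn.jensen (hF : Fn r N H) {a b : ℝ} (ha : 0 < a) (hb : 0 < b) (x y : ℝ) :
    (a + b) * H ((x + y) / (a + b)) ≤ a * H (x / a) + b * H (y / b) :=
  cvx_jensen hF.cvx ha hb x y

/-- Jensen for two points, for the differences. -/
theorem Fn.jensen' (hF : Fn r N H) {a b z : ℝ} (ha : 0 < a) (hb : 0 < b) (hz : 0 ≤ z) (x y : ℝ) :
    (a + b) * (H (z + (x + y) / (a + b)) - H ((x + y) / (a + b))) ≤
      a * (H (z + x / a) - H (x / a)) + b * (H (z + y / b) - H (y / b)) :=
  cvx_jensen (hF.cvx2 z hz) ha hb x y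

theorem Fn.succ_sub (hF : Fn r N H) (hr : 3 ≤ r) {n : ℕ} (hn : n + 1 ≤ N) :
    H ((n : ℝ) + 1) - H n = (n.choose (r - 1) : ℝ) := by
  have h1 := hF.nat (n + 1) hn
  have h2 := hF.nat n (by omega)
  push_cast at h1
  rw [h1, h2]
  obtain ⟨j, rfl⟩ : ∃ j, r = j + 1 := ⟨r - 1, by omega⟩
  rw [Nat.choose_succ_succ]
  push_cast
  simp

theorem unit_step {f : ℝ → ℝ} (hf : ConvexOn ℝ Set.univ f) {x w : ℝ} (hw0 : 0 ≤ w) (hw1 : w ≤ 1) :
    f (x + w) - f x ≤ w * (f (x + 1) - f x) := by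
  have h1 := hf.2 (Set.mem_univ (x + 1)) (Set.mem_univ x) hw0 (sub_nonneg.2 hw1) (by ring)
  have e1 : w • (x + 1) + (1 - w) • x = x + w := by
    simp only [smul_eq_mul]; ring
  rw [e1] at h1
  simp only [smul_eq_mul] at h1
  linarith

/-- The unit lemma. -/
theorem Fn.unit (hF : Fn r N H) (hr : 3 ≤ r) {c w : ℝ} {n : ℕ} (hc : 0 ≤ c) (hcn : c ≤ n)
    (hw0 : 0 ≤ w) (hw1 : w ≤ 1) (hn : n + 1 ≤ N) :
    H (c + w) - H c ≤ w * (n.choose (r - 1) : ℝ) := by
  have h1 := hF.inc hcn hw0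
  have h2 := unit_step hF.cvx (x := (n : ℝ)) hw0 hw1
  rw [hF.succ_sub hr hn] at h2
  linarith

/-- The unit lemma for the mixed differences. -/
theorem Fn.unit' (hF : Fn r N H) (hr : 3 ≤ r) {c w z μ : ℝ} {n ζ : ℕ} (hμ : 1 ≤ μ) (hc : 0 ≤ c)
    (hcn : c ≤ n) (hw0 : 0 ≤ w) (hw1 : w ≤ 1) (hz : 0 ≤ z) (hzn : z ≤ ζ) (hn : ζ + n + 1 ≤ N) :
    μ * ((H ((z + (c + w)) / μ) - H ((c + w) / μ)) - (H ((z + c) / μ) - H (c / μ))) ≤
      w * (((ζ + n).choose (r - 1) : ℝ) - (n.choose (r - 1) : ℝ)) := by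
  have hμ0 : 0 < μ := by linarith
  have hd0 : 0 ≤ z / μ := by positivity
  have ha0 : 0 ≤ c / μ := by positivity
  have hdz : z / μ ≤ ζ := (div_le_self hz hμ).trans hzn
  have han : c / μ ≤ n := (div_le_self hc hμ).trans hcn
  have hf := hF.cvx2 (z / μ) hd0
  -- convexity in the last variable
  have hg : ConvexOn ℝ Set.univ (fun e => (H (z / μ + (c / μ + e)) - H (c / μ + e)) -
      (H (z / μ + c / μ) - H (c / μ))) := by
    have h1 : ConvexOn ℝ Set.univ (fun e => H (z / μ + (c / μ + e)) - H (c / μ + e)) := by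
      have := hf.translate_right (c / μ)
      simpa [Function.comp_def] using this
    have h2 := h1.add (convexOn_const (-(H (z / μ + c / μ) - H (c / μ))) convex_univ)
    have h3 : (fun e => (H (z / μ + (c / μ + e)) - H (c / μ + e)) -
        (H (z / μ + c / μ) - H (c / μ))) = (fun e => H (z / μ + (c / μ + e)) - H (c / μ + e)) +
        fun _ => -(H (z / μ + c / μ) - H (c / μ)) := by
      funext e
      rw [Pi.add_apply]
      ring
    rw [h3]
    exact h2
  have h1 := cvx_scale hg (by simp) (t := 1 / μ) (y := w) (by positivity)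
    ((div_le_one hμ0).2 hμ)
  have h2 := cvx_scale hg (by simp) (t := w) (y := 1) hw0 hw1
  have h3 := cvx_inc hf han (zero_le_one)
  have h4 := hF.inc (a := (n : ℝ) + z / μ) (b := (n : ℝ) + ζ) (by linarith) (zero_le_one)
  have h5 := hF.succ_sub hr (n := ζ + n) hn
  have h6 := hF.succ_sub hr (n := n) (by omega)
  simp only [mul_one] at h2
  have e1 : z / μ + (c / μ + 1 / μ * w) = (z + (c + w)) / μ := by field_simp
  have e2 : c / μ + 1 / μ * w = (c + w) / μ := by field_simp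
  have e3 : z / μ + c / μ = (z + c) / μ := by field_simp
  rw [e1, e2, e3] at h1
  rw [e3] at h2
  push_cast at h5
  have h7 : (n : ℝ) + ζ + 1 = ζ + n + 1 := by ring
  have h8 : (n : ℝ) + ζ = ζ + n := by ring
  rw [h7, h8] at h4
  have h9 : z / μ + ((n : ℝ) + 1) = (n : ℝ) + z / μ + 1 := by ring
  have h10 : z / μ + (n : ℝ) = (n : ℝ) + z / μ := by ring
  simp only [h9, h10] at h3
  have e4 : z / μ + (c / μ + 1) = z / μ + (c / μ + 1) := rfl
  have h11 : (H (z / μ + (c / μ + 1)) - H (c / μ + 1)) - (H ((z + c) / μ) - H (c / μ)) ≤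
      ((ζ + n).choose (r - 1) : ℝ) - (n.choose (r - 1) : ℝ) := by
    rw [← e3]
    linarith
  have h12 := mul_le_mul_of_nonneg_left h1 hμ0.le
  have h13 : μ * (1 / μ * (H (z / μ + (c / μ + w)) - H (c / μ + w) -
      (H ((z + c) / μ) - H (c / μ)))) = H (z / μ + (c / μ + w)) - H (c / μ + w) -
      (H ((z + c) / μ) - H (c / μ)) := by
    field_simp
  rw [h13] at h12
  exact h12.trans (h2.trans (mul_le_mul_of_nonneg_left h11 hw0))

/-- Jensen over `s` slots. -/
theorem Fn.jensen_slots (hF : Fn r N H) {V : Type} {T : Finset V} {δ : V → ℝ} {s : ℝ}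
    (hs : 0 < s) (hT : (T.card : ℝ) ≤ s) :
    s * (H (s + ∑ x ∈ T, δ x) - H s) ≤ ∑ x ∈ T, (H (s + s * δ x) - H s) := by
  have hg : ConvexOn ℝ Set.univ (fun e => H (s + e)) := by
    have := hF.cvx.translate_right s
    simpa [Function.comp_def] using this
  have h1 := hg.map_add_sum_le (t := T) (w := fun _ => 1 / s) (p := fun x => s * δ x)
    (v := 1 - T.card / s) (q := 0) (by intro i _; positivity)
    (by rw [Finset.sum_const, nsmul_eq_mul]; field_simp; ring)
    (by intro i _; exact Set.mem_univ _) (by rw [sub_nonneg, div_le_one hs]; exact hT)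
    (Set.mem_univ _)
  simp only [smul_eq_mul, mul_zero, zero_add, add_zero] at h1
  have e1 : ∑ i ∈ T, 1 / s * (s * δ i) = ∑ x ∈ T, δ x := by
    apply Finset.sum_congr rfl
    intro x _
    field_simp
  rw [e1, ← Finset.mul_sum] at h1
  rw [Finset.sum_sub_distrib, Finset.sum_const, nsmul_eq_mul]
  have h2 := mul_le_mul_of_nonneg_left h1 hs.le
  have h3 : s * ((1 - T.card / s) * H s + 1 / s * ∑ i ∈ T, H (s + s * δ i)) =
      (s - T.card) * H s + ∑ i ∈ T, H (s + s * δ i) := by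
    field_simp
  rw [h3] at h2
  linarith

/-- The final numerical inequality. -/
theorem Fn.final (hF : Fn r N H) (hr : 3 ≤ r) {q s : ℕ} (hq : 1 ≤ q) (hqs : q ≤ s) (hs : s ≤ N)
    {d : ℝ} (hd : 0 ≤ d) :
    d / r * (((s - 1).choose (r - 1) : ℝ) - ((q - 1).choose (r - 1) : ℝ)) ≤
      (H (s + d) - H s) - (H (q + d) - H q) := by
  obtain ⟨q', rfl⟩ : ∃ q', q = q' + 1 := ⟨q - 1, by omega⟩
  obtain ⟨s', rfl⟩ : ∃ s', s = s' + 1 := ⟨s - 1, by omega⟩
  simp only [Nat.add_sub_cancel]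
  have hqs' : (q' : ℝ) ≤ s' := by exact_mod_cast (show q' ≤ s' by omega)
  have hf := hF.cvx2 ((s' : ℝ) - q') (sub_nonneg.2 hqs')
  have ha : 0 ≤ d / (1 + d) := by positivity
  have hb : 0 ≤ 1 / (1 + d) := by positivity
  have h1 := hf.2 (Set.mem_univ (q' : ℝ)) (Set.mem_univ ((q' : ℝ) + 1 + d)) ha hb
    (by rw [← add_div, add_comm]; exact div_self (by positivity))
  have e1 : (d / (1 + d)) • (q' : ℝ) + (1 / (1 + d)) • ((q' : ℝ) + 1 + d) = (q' : ℝ) + 1 := by
    simp only [smul_eq_mul]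
    field_simp
    ring
  rw [e1] at h1
  simp only [smul_eq_mul] at h1
  have e2 : (s' : ℝ) - q' + (q' + 1) = s' + 1 := by ring
  have e3 : (s' : ℝ) - q' + q' = s' := by ring
  have e4 : (s' : ℝ) - q' + (q' + 1 + d) = s' + 1 + d := by ring
  rw [e2, e3, e4] at h1
  have h5 := hF.succ_sub hr (n := s') hs
  have h6 := hF.succ_sub hr (n := q') (by omega)
  have h7 : (0 : ℝ) < 1 + d := by positivity
  have h8 := mul_le_mul_of_nonneg_left h1 h7.le
  have h9 : (1 + d) * (d / (1 + d) * (H s' - H q') + 1 / (1 + d) *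
      (H (s' + 1 + d) - H (q' + 1 + d))) = d * (H s' - H q') +
      (H (s' + 1 + d) - H (q' + 1 + d)) := by
    field_simp
  rw [h9] at h8
  have h10 : (q'.choose (r - 1) : ℝ) ≤ (s'.choose (r - 1) : ℝ) := by
    exact_mod_cast Nat.choose_le_choose (r - 1) (show q' ≤ s' by omega)
  have h11 : d / r ≤ d := div_le_self hd (by exact_mod_cast (show 1 ≤ r by omega))
  have h12 := mul_le_mul_of_nonneg_right h11 (sub_nonneg.2 h10)
  push_cast
  rw [← h5, ← h6] at *
  nlinarith
 
end Pool.Agent.H12.Mader
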