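import Mathlib
import Pool.Agent.H12.Mader.Fn2

set_option autoImplicit false

/-!
# States, relations, integration of the static inequality
-/

namespace Pool.Agent.H12.Mader

open Finset

variable {V : Type} [DecidableEq V] {r N : ℕ} {H : ℝ → ℝ}

theorem State.init : State (fun _ : Finset V => (1 : ℝ)) :=
  ⟨fun _ => one_pos, fun _ => le_rfl, fun _ _ _ => le_rfl⟩

theorem State.run {D : Finset V → ℝ} (hD : State D) {S : Finset V} {t : ℝ} (h0 : 0 < t)
    (h1 : t ≤ 1) : State (run S t D) := by
  have hle : ∀ e, t * D e ≤ D e := fun e => mul_le_of_le_one_left (hD.pos e).le h1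
  refine ⟨fun e => ?_, fun e => ?_, fun e f hef => ?_⟩
  · unfold Mader.run
    split_ifs
    · exact mul_pos h0 (hD.pos e)
    · exact hD.pos e
  · unfold Mader.run
    split_ifs
    · exact (hle e).trans (hD.le_one e)
    · exact hD.le_one e
  · unfold Mader.run
    have hm := hD.mono e f hef
    by_cases hf : f ⊆ S
    · rw [if_pos (hef.trans hf), if_pos hf]
      exact mul_le_mul_of_nonneg_left hm h0.le
    · rw [if_neg hf]
      by_cases he : e ⊆ S
      · rw [if_pos he]
        exact (hle e).trans hm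
      · rw [if_neg he]
        exact hm

theorem Reach.state {h : ℝ → ℝ} {M : ℝ} {U : Finset V} {D : Finset V → ℝ} {Y : ℝ}
    (hR : Reach h M U D Y) : State D := by
  induction hR with
  | init => exact State.init
  | step S t _ _ h0 h1 ih => exact ih.run h0 h1

theorem low_subset (Z X : Finset V) (p : ℝ) (D : Finset V → ℝ) (S : Finset V) :
    low Z X p D S ⊆ S := by
  unfold low
  intro x hx
  rw [mem_union, mem_filter] at hx
  rcases hx with h | h
  · exact (mem_inter.1 h).1
  · exact (mem_inter.1 h.1).1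

theorem mem_low_of_mem_Z {Z X : Finset V} {p : ℝ} {D : Finset V → ℝ} {S : Finset V} {x : V}
    (hx : x ∈ Z) (hS : x ∈ S) : x ∈ low Z X p D S := by
  unfold low
  exact mem_union_left _ (mem_inter.2 ⟨hS, hx⟩)

theorem mem_low_of_mem_X {Z X : Finset V} (hZX : Disjoint Z X) {p : ℝ} {D : Finset V → ℝ}
    {S : Finset V} {x : V} (hx : x ∈ X) : x ∈ low Z X p D S ↔ x ∈ S ∧ D {x} ≤ p := by
  have hxZ : x ∉ Z := fun h => disjoint_left.1 hZX h hx
  unfold low
  rw [mem_union, mem_filter, mem_inter, mem_inter]
  constructor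
  · rintro (h | h)
    · exact absurd h.2 hxZ
    · exact ⟨h.1.1, h.2⟩
  · rintro ⟨h, h'⟩
    exact Or.inr ⟨⟨h, hx⟩, h'⟩

/-- The relation is preserved by a clean piece. -/
theorem Rel.step {Z X : Finset V} (hZX : Disjoint Z X) {p π : ℝ} (hp : 0 < p) (hp1 : p ≤ 1)
    {D D' : Finset V → ℝ} (hD : State D) (hD' : State D') (hR : Rel Z X p π D D')
    {S : Finset V} {t : ℝ} (h0 : 0 < t) (h1 : t ≤ 1)
    (hclean : ∀ x ∈ S ∩ X, D {x} ≤ p ∨ p ≤ t * D {x}) :
    Rel Z X p π (Mader.run S t D) (Mader.run (low Z X p D S) t D') := by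
  have _ := hp1
  refine ⟨fun e he => ?_, fun e he heZ => ?_, fun x hx => ?_⟩
  · have hiff : e ⊆ low Z X p D S ↔ e ⊆ S :=
      ⟨fun h => h.trans (low_subset Z X p D S), fun h x hx => mem_low_of_mem_Z (he hx) (h hx)⟩
    unfold Mader.run
    by_cases hS : e ⊆ S
    · rw [if_pos hS, if_pos (hiff.2 hS), hR.z e he]
      ring
    · rw [if_neg hS, if_neg (fun h => hS (hiff.1 h)), hR.z e he]
  · unfold Mader.run
    by_cases hl : e ⊆ low Z X p D S
    · rw [if_pos hl, if_pos (hl.trans (low_subset Z X p D S))]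
      have := mul_le_mul_of_nonneg_left (hR.le e he heZ) h0.le
      linarith
    · rw [if_neg hl]
      by_cases hS : e ⊆ S
      · rw [if_pos hS]
        obtain ⟨x, hxe, hxl⟩ := not_subset.1 hl
        have hxS := hS hxe
        have hxZ : x ∉ Z := fun h => hxl (mem_low_of_mem_Z h hxS)
        have hxX : x ∈ X := by
          rcases mem_union.1 (he hxe) with h | h
          · exact absurd h hxZ
          · exact h
        have hDx : ¬ D {x} ≤ p := fun h => hxl ((mem_low_of_mem_X hZX hxX).2 ⟨hxS, h⟩)
        have hc : p ≤ t * D {x} := by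
          rcases hclean x (mem_inter.2 ⟨hxS, hxX⟩) with h | h
          · exact absurd h hDx
          · exact h
        have hm : D {x} ≤ D e := hD.mono _ _ (singleton_subset_iff.2 hxe)
        have h2 : t * D {x} ≤ t * D e := mul_le_mul_of_nonneg_left hm h0.le
        have h3 : p * D' e ≤ p := mul_le_of_le_one_right hp.le (hD'.le_one e)
        linarith
      · rw [if_neg hS]
        exact hR.le e he heZ
  · unfold Mader.run
    have hiff : ({x} : Finset V) ⊆ low Z X p D S ↔ x ∈ S ∧ D {x} ≤ p := by
      rw [singleton_subset_iff]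
      exact mem_low_of_mem_X hZX hx
    by_cases hS : x ∈ S
    · rw [if_pos (singleton_subset_iff.2 hS)]
      by_cases hDx : D {x} ≤ p
      · rw [if_pos (hiff.2 ⟨hS, hDx⟩), hR.sing x hx]
        have h2 : D {x} / p ≤ 1 := by rw [div_le_one hp]; exact hDx
        have h3 : t * D {x} / p ≤ 1 := by
          rw [div_le_one hp]
          exact (mul_le_of_le_one_left (hD.pos _).le h1).trans hDx
        rw [min_eq_right h2, min_eq_right h3]
        ring
      · rw [if_neg (fun h => hDx (hiff.1 h).2), hR.sing x hx]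
        have hc : p ≤ t * D {x} := by
          rcases hclean x (mem_inter.2 ⟨hS, hx⟩) with h | h
          · exact absurd h hDx
          · exact h
        push Not at hDx
        have h2 : 1 ≤ D {x} / p := by rw [one_le_div hp]; exact hDx.le
        have h3 : 1 ≤ t * D {x} / p := by rw [one_le_div hp]; exact hc
        rw [min_eq_left h2, min_eq_left h3]
    · rw [if_neg (fun h => hS (singleton_subset_iff.1 h)), if_neg (fun h => hS (hiff.1 h).1)]
      exact hR.sing x hx

/-- The initial relation, after running the separator in the child. -/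
theorem Rel.init {Z X : Finset V} (hZX : Disjoint Z X) {p π : ℝ} (hp : 0 < p) (hp1 : p ≤ 1)
    (h0 : 0 < π) (h1 : π ≤ 1) :
    Rel Z X p π (fun _ => 1) (Mader.run Z π (fun _ => 1)) := by
  have _ := h0
  have _ := h1
  refine ⟨fun e he => ?_, fun e he heZ => ?_, fun x hx => ?_⟩
  · unfold Mader.run
    rw [if_pos he]
  · unfold Mader.run
    rw [if_neg heZ]
    linarith
  · unfold Mader.run
    have hxZ : x ∉ Z := fun h => disjoint_left.1 hZX h hx
    rw [if_neg (fun h => hxZ (singleton_subset_iff.1 h))]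
    rw [min_eq_left]
    rw [one_le_div hp]
    exact hp1

/-- Integration of the static inequality over a piece. -/
theorem integ (hF : Fn r N H) (hr : 3 ≤ r) {ι : Type} (I : Finset ι) (c a : ι → ℝ) {K t : ℝ}
    (ha : ∀ i ∈ I, 0 ≤ a i) (h0 : 0 < t) (h1 : t ≤ 1)
    (hst : ∀ u, t ≤ u → u ≤ 1 → 0 ≤ u * K + ∑ i ∈ I, c i * H (a i * u)) :
    0 ≤ (1 - t) * K + ∑ i ∈ I, c i * (hh H (a i) - hh H (t * a i)) := by
  have _ := ha
  set E : ℝ → ℝ := fun u => u * K + ∑ i ∈ I, c i * hh H (a i * u) with hE
  set E' : ℝ → ℝ := fun u => K + ∑ i ∈ I, c i * (H (a i * u) / (a i * u) * a i) with hE'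
  have hder : ∀ u, HasDerivAt E (E' u) u := by
    intro u
    have d1 : HasDerivAt (fun u : ℝ => u * K) K u := by
      simpa using (hasDerivAt_id u).mul_const K
    have d2 : HasDerivAt (fun u : ℝ => ∑ i ∈ I, c i * hh H (a i * u))
        (∑ i ∈ I, c i * (H (a i * u) / (a i * u) * a i)) u := by
      apply HasDerivAt.fun_sum
      intro i _
      have e1 : HasDerivAt (fun u : ℝ => a i * u) (a i) u := by
        simpa using (hasDerivAt_id u).const_mul (a i)
      exact ((hh_hasDerivAt hF hr (a i * u)).comp u e1).const_mul (c i)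
    exact d1.add d2
  have hpos : ∀ u, t ≤ u → u ≤ 1 → 0 ≤ E' u := by
    intro u hu1 hu2
    have hu : 0 < u := lt_of_lt_of_le h0 hu1
    have h2 := hst u hu1 hu2
    have h3 : u * E' u = u * K + ∑ i ∈ I, c i * H (a i * u) := by
      simp only [hE']
      rw [mul_add, mul_sum]
      congr 1
      apply sum_congr rfl
      intro i _
      by_cases hi : a i = 0
      · rw [hi, zero_mul, hF.at_zero hr]
        ring
      · field_simp
    rw [← h3] at h2
    exact nonneg_of_mul_nonneg_right h2 hu
  have hmono : MonotoneOn E (Set.Icc t 1) := by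
    apply monotoneOn_of_deriv_nonneg (convex_Icc t 1)
    · exact fun u _ => (hder u).continuousAt.continuousWithinAt
    · exact fun u _ => (hder u).differentiableAt.differentiableWithinAt
    · intro u hu
      rw [interior_Icc] at hu
      rw [(hder u).deriv]
      exact hpos u hu.1.le hu.2.le
  have h4 := hmono (Set.left_mem_Icc.2 h1) (Set.right_mem_Icc.2 h1) h1
  simp only [hE] at h4
  have e1 : ∑ i ∈ I, c i * (hh H (a i) - hh H (t * a i)) =
      ∑ i ∈ I, c i * hh H (a i * 1) - ∑ i ∈ I, c i * hh H (a i * t) := by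
    rw [← sum_sub_distrib]
    apply sum_congr rfl
    intro i _
    rw [mul_one, mul_comm t]
    ring
  rw [e1]
  linarith

end Pool.Agent.H12.Mader
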