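import Mathlib
import Pool.Agent.H12.Mader.Fn2

set_option autoImplicit false

namespace Pool.Agent.H12.Mader

open Finset

variable {V : Type} [DecidableEq V] {r N : ℕ} {H : ℝ → ℝ}

/-- number of `r`-subsets containing a given vertex -/
theorem card_filter_mem_pl (Q : Finset V) (r : ℕ) (hr : 1 ≤ r) {x : V} (hx : x ∈ Q) :
    ((Q.powersetCard r).filter (fun e => x ∈ e)).card = (Q.card - 1).choose (r - 1) := by
  rw [← Finset.card_erase_of_mem hx, ← Finset.card_powersetCard]
  refine Finset.card_nbij' (fun e => e.erase x) (fun e => insert x e) ?_ ?_ ?_ ?_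
  · intro e he
    simp only [coe_filter, mem_powersetCard, Set.mem_ofPred_eq] at he
    simp only [mem_coe, mem_powersetCard]
    refine ⟨Finset.erase_subset_erase _ he.1.1, ?_⟩
    rw [Finset.card_erase_of_mem he.2, he.1.2]
  · intro e he
    simp only [mem_coe, mem_powersetCard] at he
    simp only [coe_filter, mem_powersetCard, Set.mem_ofPred_eq]
    have hxe : x ∉ e := fun h => (Finset.mem_erase.1 (he.1 h)).1 rfl
    refine ⟨⟨?_, ?_⟩, Finset.mem_insert_self _ _⟩
    · exact Finset.insert_subset hx (he.1.trans (Finset.erase_subset _ _))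
    · rw [Finset.card_insert_of_notMem hxe, he.2]; omega
  · intro e he
    simp only [coe_filter, mem_powersetCard, Set.mem_ofPred_eq] at he
    exact Finset.insert_erase he.2
  · intro e he
    simp only [mem_coe, mem_powersetCard] at he
    have hxe : x ∉ e := fun h => (Finset.mem_erase.1 (he.1 h)).1 rfl
    exact Finset.erase_insert hxe

/-- The payment of the edges with a high vertex. -/
theorem pay_pure (J T : Finset V) (hJT : Disjoint J T) (w : V → ℝ) (D : Finset V → ℝ) (P : ℝ)
    (r : ℕ) (hr : 1 ≤ r) (hD : ∀ e ∈ (J ∪ T).powersetCard r, ∀ x ∈ e, w x ≤ D e)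
    (hT : ∀ x ∈ T, P ≤ w x) :
    P * (((J ∪ T).card.choose r : ℝ) - (J.card.choose r : ℝ))
      + (((J ∪ T).card - 1).choose (r - 1) : ℝ) / r * ∑ x ∈ T, (w x - P)
    ≤ ∑ e ∈ ((J ∪ T).powersetCard r).filter (fun e => ¬ Disjoint e T), D e := by
  set E' := ((J ∪ T).powersetCard r).filter (fun e => ¬ Disjoint e T) with hE'
  have hr0 : (0 : ℝ) < r := by exact_mod_cast hr
  have hcard : (E'.card : ℝ) =
      ((J ∪ T).card.choose r : ℝ) - (J.card.choose r : ℝ) := by
    have h1 : ((J ∪ T).powersetCard r).filter (fun e => ¬ ¬ Disjoint e T)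
        = J.powersetCard r := by
      ext e
      simp only [mem_filter, mem_powersetCard, not_not]
      constructor
      · rintro ⟨⟨h1, h2⟩, h3⟩
        refine ⟨fun x hx => ?_, h2⟩
        rcases Finset.mem_union.1 (h1 hx) with h | h
        · exact h
        · exact absurd h (Finset.disjoint_left.1 h3 hx)
      · rintro ⟨h1, h2⟩
        exact ⟨⟨h1.trans Finset.subset_union_left, h2⟩, hJT.mono_left h1⟩
    have h2 := Finset.card_filter_add_card_filter_not (s := (J ∪ T).powersetCard r)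
      (fun e => ¬ Disjoint e T)
    rw [h1, Finset.card_powersetCard, Finset.card_powersetCard] at h2
    rw [eq_sub_iff_add_eq]
    exact_mod_cast h2
  have hpt : ∀ e ∈ E', P + (1 / r) * ∑ x ∈ e ∩ T, (w x - P) ≤ D e := by
    intro e he
    rw [hE', Finset.mem_filter] at he
    obtain ⟨he1, he2⟩ := he
    rw [Finset.not_disjoint_iff] at he2
    obtain ⟨x0, hx0, hx0T⟩ := he2
    have hDP : 0 ≤ D e - P := by linarith [hD e he1 x0 hx0, hT x0 hx0T]
    have hs : ∑ x ∈ e ∩ T, (w x - P) ≤ r * (D e - P) := by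
      calc ∑ x ∈ e ∩ T, (w x - P)
          ≤ ∑ x ∈ e ∩ T, (D e - P) := by
            refine Finset.sum_le_sum fun x hx => ?_
            linarith [hD e he1 x (Finset.mem_inter.1 hx).1]
        _ = (e ∩ T).card * (D e - P) := by
            rw [Finset.sum_const, nsmul_eq_mul]
        _ ≤ r * (D e - P) := by
            refine mul_le_mul_of_nonneg_right ?_ hDP
            have : (e ∩ T).card ≤ e.card := Finset.card_le_card Finset.inter_subset_left
            rw [(Finset.mem_powersetCard.1 he1).2] at this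
            exact_mod_cast this
    have : (1 / r : ℝ) * ∑ x ∈ e ∩ T, (w x - P) ≤ D e - P := by
      rw [one_div, inv_mul_le_iff₀ hr0]
      exact hs
    linarith
  have hsum : ∑ e ∈ E', ∑ x ∈ e ∩ T, (w x - P)
      = (((J ∪ T).card - 1).choose (r - 1) : ℝ) * ∑ x ∈ T, (w x - P) := by
    rw [Finset.sum_comm' (s' := fun x => ((J ∪ T).powersetCard r).filter (fun e => x ∈ e))
      (t' := T)]
    · rw [Finset.mul_sum]
      refine Finset.sum_congr rfl fun x hx => ?_
      rw [Finset.sum_const, nsmul_eq_mul, card_filter_mem_pl (J ∪ T) r hr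
        (Finset.mem_union_right _ hx)]
    · intro e x
      simp only [hE', mem_filter, mem_powersetCard, mem_inter]
      constructor
      · rintro ⟨⟨⟨h1, h2⟩, _⟩, h3, h4⟩
        exact ⟨⟨⟨h1, h2⟩, h3⟩, h4⟩
      · rintro ⟨⟨⟨h1, h2⟩, h3⟩, h4⟩
        exact ⟨⟨⟨h1, h2⟩, Finset.not_disjoint_iff.2 ⟨x, h3, h4⟩⟩, h3, h4⟩
  calc P * (((J ∪ T).card.choose r : ℝ) - (J.card.choose r : ℝ))
      + (((J ∪ T).card - 1).choose (r - 1) : ℝ) / r * ∑ x ∈ T, (w x - P)
      = ∑ e ∈ E', (P + (1 / r) * ∑ x ∈ e ∩ T, (w x - P)) := by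
        rw [Finset.sum_add_distrib, Finset.sum_const, nsmul_eq_mul, ← Finset.mul_sum, hsum, hcard]
        ring
    _ ≤ ∑ e ∈ E', D e := Finset.sum_le_sum hpt

/-- The part inside one side. -/
theorem pure_lem (hF : Fn r N H) (hr : 3 ≤ r) {D : Finset V → ℝ} {J T : Finset V}
    (hJT : Disjoint J T) {s : ℕ} (hs : J.card + T.card ≤ s) (hs1 : 1 ≤ s) (hN : s ≤ N) {p : ℝ}
    (hp : 0 < p) (hp1 : p ≤ 1) (h0 : ∀ e, 0 ≤ D e) (h1 : ∀ e, D e ≤ 1)
    (hm : ∀ e f, e ⊆ f → D e ≤ D f) (hJ : ∀ x ∈ J, D {x} ≤ p) (hT : ∀ x ∈ T, p ≤ D {x}) :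
    p * H ((wt D J + wt D T) / p) ≤
      ∑ e ∈ (powersetCard r (J ∪ T)).filter (fun e => ¬ Disjoint e T), D e +
        p * H (wt D J / p) +
        ∑ x ∈ T, (p / s * H (s * D {x} / p) - (s.choose r : ℝ) / s * D {x}) := by
  rcases T.eq_empty_or_nonempty with hTe | hTne
  · subst hTe
    have e1 : wt D (∅ : Finset V) = 0 := by simp [wt]
    rw [e1, add_zero, Finset.sum_empty, add_zero]
    have : 0 ≤ ∑ e ∈ (powersetCard r (J ∪ ∅)).filter (fun e => ¬ Disjoint e (∅ : Finset V)), D e :=
      Finset.sum_nonneg fun e _ => h0 e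
    linarith
  · have hcardQ : (J ∪ T).card = J.card + T.card := Finset.card_union_of_disjoint hJT
    have hq1 : 1 ≤ (J ∪ T).card :=
      (Finset.card_pos.2 hTne).trans_le (Finset.card_le_card Finset.subset_union_right)
    have hsQ : (J ∪ T).card ≤ s := hcardQ ▸ hs
    have hs0 : (0 : ℝ) < s := by exact_mod_cast hs1
    have hr1 : 1 ≤ r := by omega
    have hr0 : (0 : ℝ) < r := by exact_mod_cast hr1
    -- notation
    set δ : V → ℝ := fun x => (D {x} - p) / p with hδ
    set Δ : ℝ := ∑ x ∈ T, δ x with hΔ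
    have hδ0 : ∀ x ∈ T, 0 ≤ δ x := by
      intro x hx
      exact div_nonneg (by linarith [hT x hx]) hp.le
    have hΔ0 : 0 ≤ Δ := Finset.sum_nonneg hδ0
    have hsumT : ∑ x ∈ T, (D {x} - p) = p * Δ := by
      rw [hΔ, Finset.mul_sum]
      refine Finset.sum_congr rfl fun x _ => ?_
      rw [hδ]; field_simp
    -- (1) payment
    have h1' := pay_pure J T hJT (fun x => D {x}) D p r hr1 (by
      intro e _ x hx
      exact hm _ _ (Finset.singleton_subset_iff.2 hx)) hT
    rw [hsumT] at h1'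
    -- (2) state function
    have hTs : (T.card : ℝ) ≤ s := by
      have : T.card ≤ s := by omega
      exact_mod_cast this
    have h2 := hF.jensen_slots (T := T) (δ := δ) hs0 hTs
    rw [← hΔ] at h2
    have hHs : H s = (s.choose r : ℝ) := hF.nat s hN
    have h2' : p * (H (s + Δ) - H s) - (s.choose r : ℝ) / s * (p * Δ)
        ≤ ∑ x ∈ T, (p / s * H (s * D {x} / p) - (s.choose r : ℝ) / s * D {x}) := by
      have e0 : ∑ x ∈ T, (p / s * H (s * D {x} / p) - (s.choose r : ℝ) / s * D {x})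
          = ∑ x ∈ T, (p / s * (H (s + s * δ x) - H s)) - (s.choose r : ℝ) / s * (p * Δ) := by
        rw [← hsumT, Finset.mul_sum, ← Finset.sum_sub_distrib]
        refine Finset.sum_congr rfl fun x _ => ?_
        have : (s : ℝ) * D {x} / p = s + s * δ x := by rw [hδ]; field_simp; ring
        rw [this, hHs]
        field_simp
        ring
      rw [e0, ← Finset.mul_sum]
      have : p * (H (s + Δ) - H s) ≤ p / s * ∑ x ∈ T, (H (s + s * δ x) - H s) := by
        calc p * (H (s + Δ) - H s) = p / s * (s * (H (s + Δ) - H s)) := by field_simp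
          _ ≤ p / s * ∑ x ∈ T, (H (s + s * δ x) - H s) := by gcongr
      linarith
    -- (3) convexity on the left
    have hcardsplit : (J.card : ℝ) + T.card = ((J ∪ T).card : ℕ) := by
      rw [hcardQ]; push_cast; ring
    have hsumTw : wt D T = p * (T.card + Δ) := by
      have : wt D T = ∑ x ∈ T, (D {x} - p) + T.card * p := by
        rw [Finset.sum_sub_distrib, Finset.sum_const, nsmul_eq_mul, wt]; ring
      rw [this, hsumT]; ring
    have hLw1 : wt D J / p ≤ J.card := by
      rw [div_le_iff₀ hp]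
      calc wt D J ≤ ∑ x ∈ J, p := Finset.sum_le_sum fun x hx => hJ x hx
        _ = J.card * p := by rw [Finset.sum_const, nsmul_eq_mul]
    have h3 := hF.inc hLw1 (d := T.card + Δ) (by positivity)
    have e3 : (wt D J + wt D T) / p = wt D J / p + (T.card + Δ) := by
      rw [hsumTw]; field_simp
    have e4 : (J.card : ℝ) + (T.card + Δ) = ((J ∪ T).card : ℕ) + Δ := by rw [← hcardsplit]; ring
    rw [← e3, e4] at h3
    -- (4) key increment
    have h4 := hF.final hr hq1 hsQ hN hΔ0
    have hvL : H J.card = (J.card.choose r : ℝ) := hF.nat _ (by omega)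
    have hvQ : H (J ∪ T).card = ((J ∪ T).card.choose r : ℝ) := hF.nat _ (by omega)
    -- C(s,r)/s = C(s-1,r-1)/r
    have hcs : (s.choose r : ℝ) / s = ((s - 1).choose (r - 1) : ℝ) / r := by
      rw [div_eq_div_iff hs0.ne' hr0.ne']
      obtain ⟨m, rfl⟩ : ∃ m, s = m + 1 := ⟨s - 1, by omega⟩
      obtain ⟨r', rfl⟩ : ∃ r', r = r' + 1 := ⟨r - 1, by omega⟩
      simp only [Nat.add_sub_cancel]
      have := Nat.add_one_mul_choose_eq m r'
      have h' : ((m + 1 : ℕ) : ℝ) * (m.choose r' : ℝ) = ((m + 1).choose (r' + 1) : ℝ) * ((r' + 1 : ℕ) : ℝ) := by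
        exact_mod_cast this
      linarith
    rw [hcs] at h2' ⊢
    have hfin : p * (H ((J ∪ T).card + Δ) - H J.card)
        ≤ (p * (((J ∪ T).card.choose r : ℝ) - (J.card.choose r : ℝ))
          + (((J ∪ T).card - 1).choose (r - 1) : ℝ) / r * (p * Δ))
          + (p * (H (s + Δ) - H s) - ((s - 1).choose (r - 1) : ℝ) / r * (p * Δ)) := by
      rw [← hvL, ← hvQ]
      have := mul_le_mul_of_nonneg_left h4 hp.le
      have e5 : p * (Δ / r * (((s - 1).choose (r - 1) : ℝ) - (((J ∪ T).card - 1).choose (r - 1) : ℝ)))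
        = ((s - 1).choose (r - 1) : ℝ) / r * (p * Δ) - (((J ∪ T).card - 1).choose (r - 1) : ℝ) / r * (p * Δ) := by
        ring
      rw [e5] at this
      linarith
    have h3' := mul_le_mul_of_nonneg_left h3 hp.le
    linarith

end Pool.Agent.H12.Mader
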