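import Mathlib
import Pool.Agent.H12.Mader.Defs
import Pool.Agent.H12.Mader.Fn2

set_option autoImplicit false

/-!
# The leaf inequality and the part meeting the separator
-/

namespace Pool.Agent.H12.Mader

open Finset

variable {V : Type} [DecidableEq V] {r N : ℕ} {H : ℝ → ℝ}

omit [DecidableEq V] in
private theorem zlem_wt_nonneg {D : Finset V → ℝ} (h0 : ∀ e, 0 ≤ D e) (S : Finset V) :
    0 ≤ wt D S := sum_nonneg fun _ _ => h0 _

omit [DecidableEq V] in
private theorem zlem_wt_le {D : Finset V → ℝ} (h1 : ∀ e, D e ≤ 1) (S : Finset V) :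
    wt D S ≤ S.card := by
  unfold wt
  have h := sum_le_card_nsmul S (fun x => D {x}) 1 (fun x _ => h1 _)
  simpa using h

private theorem zlem_wt_insert {D : Finset V → ℝ} {x : V} {S : Finset V} (hx : x ∉ S) :
    wt D (insert x S) = wt D S + D {x} := by
  unfold wt
  rw [sum_insert hx, add_comm]

private theorem zlem_insert_inj {x : V} {s : Set (Finset V)} (hs : ∀ f ∈ s, x ∉ f) :
    Set.InjOn (fun f : Finset V => insert x f) s := by
  intro f hf g hg hfg
  have h1 : (insert x f).erase x = (insert x g).erase x := congrArg (fun e => e.erase x) hfg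
  rwa [erase_insert (hs f hf), erase_insert (hs g hg)] at h1

/-- Leaf inequality. -/
theorem leaf_lem (hF : Fn r N H) (hr : 3 ≤ r) {D : Finset V → ℝ} {S : Finset V}
    (hN : S.card ≤ N) (h0 : ∀ e, 0 ≤ D e) (h1 : ∀ e, D e ≤ 1) (hm : ∀ e f, e ⊆ f → D e ≤ D f) :
    H (wt D S) ≤ ∑ e ∈ powersetCard r S, D e := by
  obtain ⟨k, rfl⟩ : ∃ k, r = k + 1 := ⟨r - 1, by omega⟩
  induction S using Finset.induction_on with
  | empty =>
    have e : wt D (∅ : Finset V) = 0 := by unfold wt; simp
    rw [e, hF.at_zero hr]
    exact sum_nonneg fun _ _ => h0 _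
  | insert x S hx ih =>
    rw [card_insert_of_notMem hx] at hN
    have ih' := ih (by omega)
    have hu := hF.unit hr (zlem_wt_nonneg h0 S) (zlem_wt_le h1 S) (h0 {x}) (h1 {x}) hN
    rw [Nat.add_sub_cancel] at hu
    have hdis : Disjoint (powersetCard (k + 1) S) ((powersetCard k S).image (insert x)) := by
      rw [disjoint_left]
      intro e he he'
      rw [mem_powersetCard] at he
      rw [mem_image] at he'
      obtain ⟨f, _, rfl⟩ := he'
      exact hx (he.1 (mem_insert_self x f))
    have hinj : Set.InjOn (fun f : Finset V => insert x f) (powersetCard k S : Set (Finset V)) := by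
      apply zlem_insert_inj
      intro f hf hxf
      have hf' := mem_coe.mp hf
      rw [mem_powersetCard] at hf'
      exact hx (hf'.1 hxf)
    rw [powersetCard_succ_insert hx, sum_union hdis, sum_image hinj, zlem_wt_insert hx]
    have h2 : (S.card.choose k : ℝ) * D {x} ≤ ∑ f ∈ powersetCard k S, D (insert x f) := by
      have h3 := card_nsmul_le_sum (powersetCard k S) (fun f => D (insert x f)) (D {x})
        (fun f _ => hm _ _ (singleton_subset_iff.mpr (mem_insert_self x f)))
      rw [card_powersetCard, nsmul_eq_mul] at h3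
      exact h3
    linarith

/-- The part meeting the separator. -/
theorem z_lem (hF : Fn r N H) (hr : 3 ≤ r) {D : Finset V → ℝ} {Z J T : Finset V}
    (hZJ : Disjoint Z J) (hZT : Disjoint Z T) (hJT : Disjoint J T)
    (hN : Z.card + J.card + T.card ≤ N) {μ : ℝ} (hμ : 1 ≤ μ)
    (h0 : ∀ e, 0 ≤ D e) (h1 : ∀ e, D e ≤ 1) (hm : ∀ e f, e ⊆ f → D e ≤ D f) :
    μ * ((H ((wt D Z + (wt D J + wt D T)) / μ) - H ((wt D J + wt D T) / μ)) -
        (H ((wt D Z + wt D J) / μ) - H (wt D J / μ))) ≤
      ∑ e ∈ (powersetCard r (Z ∪ (J ∪ T))).filter (fun e => ¬ Disjoint e Z ∧ ¬ Disjoint e T), D e := by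
  obtain ⟨k, rfl⟩ : ∃ k, r = k + 1 := ⟨r - 1, by omega⟩
  induction T using Finset.induction_on with
  | empty =>
    have e : wt D (∅ : Finset V) = 0 := by unfold wt; simp
    rw [e, add_zero, sub_self, mul_zero]
    exact sum_nonneg fun _ _ => h0 _
  | insert x T hx ih =>
    rw [disjoint_insert_right] at hZT hJT
    rw [card_insert_of_notMem hx] at hN
    have ih' := ih hZT.2 hJT.2 (by omega)
    -- the set to which x is added
    set S : Finset V := Z ∪ (J ∪ T) with hS
    have hxS : x ∉ S := by
      rw [hS, mem_union, mem_union]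
      rintro (h | h | h)
      · exact hZT.1 h
      · exact hJT.1 h
      · exact hx h
    have hcard1 : (J ∪ T).card = J.card + T.card := card_union_of_disjoint hJT.2
    have hcard2 : S.card = Z.card + (J.card + T.card) := by
      rw [hS, card_union_of_disjoint (disjoint_union_right.mpr ⟨hZJ, hZT.2⟩), hcard1]
    have hu := hF.unit' hr (c := wt D J + wt D T) (w := D {x}) (z := wt D Z)
      (n := J.card + T.card) (ζ := Z.card) hμ
      (add_nonneg (zlem_wt_nonneg h0 J) (zlem_wt_nonneg h0 T))
      (by push_cast; exact add_le_add (zlem_wt_le h1 J) (zlem_wt_le h1 T)) (h0 {x}) (h1 {x})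
      (zlem_wt_nonneg h0 Z) (zlem_wt_le h1 Z) (by omega)
    rw [Nat.add_sub_cancel] at hu
    -- the new sets
    set F : Finset (Finset V) := (powersetCard k S).filter (fun f => ¬ Disjoint f Z) with hFd
    have hFcard : (F.card : ℝ) = ((Z.card + (J.card + T.card)).choose k : ℝ) -
        ((J.card + T.card).choose k : ℝ) := by
      have e1 : ((powersetCard k S).filter (fun f => Disjoint f Z)) = powersetCard k (J ∪ T) := by
        ext f
        rw [mem_filter, mem_powersetCard, mem_powersetCard]
        constructor
        · rintro ⟨⟨h1, h2⟩, h3⟩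
          refine ⟨fun y hy => ?_, h2⟩
          have h4 := h1 hy
          rw [hS, mem_union] at h4
          rcases h4 with h4 | h4
          · exact absurd h4 (disjoint_left.mp h3 hy)
          · exact h4
        · rintro ⟨h1, h2⟩
          refine ⟨⟨fun y hy => ?_, h2⟩, ?_⟩
          · rw [hS, mem_union]
            right
            exact h1 hy
          · rw [disjoint_left]
            intro y hy hyZ
            have h4 := h1 hy
            rw [mem_union] at h4
            rcases h4 with h4 | h4
            · exact disjoint_left.mp hZJ hyZ h4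
            · exact disjoint_left.mp hZT.2 hyZ h4
      have e2 := card_filter_add_card_filter_not (s := powersetCard k S) (fun f => Disjoint f Z)
      rw [e1, card_powersetCard, card_powersetCard, hcard1, hcard2] at e2
      have e3 : (((J.card + T.card).choose k : ℕ) : ℝ) + (F.card : ℝ) =
          ((Z.card + (J.card + T.card)).choose k : ℕ) := by exact_mod_cast e2
      linarith
    have hinj : Set.InjOn (fun f : Finset V => insert x f) (F : Set (Finset V)) := by
      apply zlem_insert_inj
      intro f hf hxf
      have hf' := mem_coe.mp hf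
      rw [hFd, mem_filter, mem_powersetCard] at hf'
      exact hxS (hf'.1.1 hxf)
    have hdis : Disjoint ((powersetCard (k + 1) S).filter (fun e => ¬ Disjoint e Z ∧ ¬ Disjoint e T))
        (F.image (insert x)) := by
      rw [disjoint_left]
      intro e he he'
      rw [mem_filter, mem_powersetCard] at he
      rw [mem_image] at he'
      obtain ⟨f, _, rfl⟩ := he'
      exact hxS (he.1.1 (mem_insert_self x f))
    have hsub : (powersetCard (k + 1) S).filter (fun e => ¬ Disjoint e Z ∧ ¬ Disjoint e T) ∪
        F.image (insert x) ⊆ (powersetCard (k + 1) (Z ∪ (J ∪ insert x T))).filter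
          (fun e => ¬ Disjoint e Z ∧ ¬ Disjoint e (insert x T)) := by
      intro e he
      rw [mem_union] at he
      rw [mem_filter, mem_powersetCard]
      have hSsub : S ⊆ Z ∪ (J ∪ insert x T) := by
        rw [hS]
        exact union_subset_union_right (union_subset_union_right (subset_insert x T))
      rcases he with he | he
      · rw [mem_filter, mem_powersetCard] at he
        obtain ⟨⟨a1, a2⟩, a3, a4⟩ := he
        refine ⟨⟨a1.trans hSsub, a2⟩, a3, fun h => a4 ?_⟩
        exact disjoint_of_subset_right (subset_insert x T) h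
      · rw [mem_image] at he
        obtain ⟨f, hf, rfl⟩ := he
        rw [hFd, mem_filter, mem_powersetCard] at hf
        obtain ⟨⟨a1, a2⟩, a3⟩ := hf
        have hxf : x ∉ f := fun h => hxS (a1 h)
        refine ⟨⟨?_, ?_⟩, fun h => a3 ?_, fun h => ?_⟩
        · intro y hy
          rw [mem_insert] at hy
          rcases hy with rfl | hy
          · rw [mem_union, mem_union]
            right; right
            exact mem_insert_self _ _
          · exact hSsub (a1 hy)
        · rw [card_insert_of_notMem hxf, a2]
        · exact disjoint_of_subset_left (subset_insert x f) h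
        · exact disjoint_left.mp h (mem_insert_self x f) (mem_insert_self x T)
    have h2 : (F.card : ℝ) * D {x} ≤ ∑ f ∈ F, D (insert x f) := by
      have h3 := card_nsmul_le_sum F (fun f => D (insert x f)) (D {x})
        (fun f _ => hm _ _ (singleton_subset_iff.mpr (mem_insert_self x f)))
      rw [nsmul_eq_mul] at h3
      exact h3
    have h3 := sum_le_sum_of_subset_of_nonneg hsub (fun e _ _ => h0 e)
    rw [sum_union hdis, sum_image hinj] at h3
    rw [zlem_wt_insert hx, ← add_assoc (wt D J)]
    rw [hFcard] at h2
    have e4 : μ * ((H ((wt D Z + (wt D J + wt D T + D {x})) / μ) - H ((wt D J + wt D T + D {x}) / μ)) -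
        (H ((wt D Z + wt D J) / μ) - H (wt D J / μ))) =
      μ * ((H ((wt D Z + (wt D J + wt D T + D {x})) / μ) - H ((wt D J + wt D T + D {x}) / μ)) -
        (H ((wt D Z + (wt D J + wt D T)) / μ) - H ((wt D J + wt D T) / μ))) +
      μ * ((H ((wt D Z + (wt D J + wt D T)) / μ) - H ((wt D J + wt D T) / μ)) -
        (H ((wt D Z + wt D J) / μ) - H (wt D J / μ))) := by ring
    rw [e4]
    linarith

end Pool.Agent.H12.Mader
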