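import Mathlib
import Pool.Agent.H12.Mader.ZLem
import Pool.Agent.H12.Mader.PureLem

set_option autoImplicit false

namespace Pool.Agent.H12.Mader

open Finset

variable {V : Type} [DecidableEq V] {r N : ℕ} {H : ℝ → ℝ}

/-- The static inequality.  `μA, μB` are the child parameters, `μ = μA + μB ≥ 1`, the thresholds
are `min 1 μA`, `min 1 μB`; there are no high vertices on a side with `μX ≥ 1`. -/
theorem static_lem (hF : Fn r N H) (hr : 3 ≤ r) {D : Finset V → ℝ} {Z JA TA JB TB : Finset V}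
    (hZA : Disjoint Z (JA ∪ TA)) (hZB : Disjoint Z (JB ∪ TB)) (hAB : Disjoint (JA ∪ TA) (JB ∪ TB))
    (hJTA : Disjoint JA TA) (hJTB : Disjoint JB TB) {sA sB : ℕ}
    (hsA : JA.card + TA.card ≤ sA) (hsB : JB.card + TB.card ≤ sB) (hsA1 : 1 ≤ sA) (hsB1 : 1 ≤ sB)
    (hN : Z.card + sA + sB ≤ N) {μA μB : ℝ} (hμA : 0 < μA) (hμB : 0 < μB) (hμ : 1 ≤ μA + μB)
    (h0 : ∀ e, 0 ≤ D e) (h1 : ∀ e, D e ≤ 1) (hm : ∀ e f, e ⊆ f → D e ≤ D f)
    (hJA : ∀ x ∈ JA, D {x} ≤ min 1 μA) (hTA : ∀ x ∈ TA, min 1 μA ≤ D {x})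
    (hTA1 : 1 ≤ μA → TA = ∅)
    (hJB : ∀ x ∈ JB, D {x} ≤ min 1 μB) (hTB : ∀ x ∈ TB, min 1 μB ≤ D {x})
    (hTB1 : 1 ≤ μB → TB = ∅) :
    (μA + μB) * H ((wt D Z + (wt D JA + wt D TA) + (wt D JB + wt D TB)) / (μA + μB)) ≤
      ∑ e ∈ (powersetCard r (Z ∪ ((JA ∪ JB) ∪ (TA ∪ TB)))).filter
          (fun e => ¬ Disjoint e Z ∧ ¬ Disjoint e (TA ∪ TB)), D e +
      ∑ e ∈ (powersetCard r (JA ∪ TA)).filter (fun e => ¬ Disjoint e TA), D e +
      ∑ e ∈ (powersetCard r (JB ∪ TB)).filter (fun e => ¬ Disjoint e TB), D e +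
      μA * H (wt D Z / (μA + μB) + wt D JA / μA) + μB * H (wt D Z / (μA + μB) + wt D JB / μB) +
      ∑ x ∈ TA, (min 1 μA / sA * H (sA * D {x} / min 1 μA) - (sA.choose r : ℝ) / sA * D {x}) +
      ∑ x ∈ TB, (min 1 μB / sB * H (sB * D {x} / min 1 μB) - (sB.choose r : ℝ) / sB * D {x}) := by
  classical
  have hw : ∀ S : Finset V, 0 ≤ wt D S := fun S => sum_nonneg fun x _ => h0 _
  have hu : ∀ S T : Finset V, Disjoint S T → wt D (S ∪ T) = wt D S + wt D T :=
    fun S T h => sum_union h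
  have hμ0 : 0 < μA + μB := by linarith
  have dA := disjoint_union_left.1 hAB
  have dA1 := disjoint_union_right.1 dA.1
  have dA2 := disjoint_union_right.1 dA.2
  have dZA := disjoint_union_right.1 hZA
  have dZB := disjoint_union_right.1 hZB
  -- the part meeting the separator
  have hJ : wt D (JA ∪ JB) = wt D JA + wt D JB := hu _ _ dA1.1
  have hT : wt D (TA ∪ TB) = wt D TA + wt D TB := hu _ _ dA2.2
  have hZJ : Disjoint Z (JA ∪ JB) := disjoint_union_right.2 ⟨dZA.1, dZB.1⟩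
  have hZT : Disjoint Z (TA ∪ TB) := disjoint_union_right.2 ⟨dZA.2, dZB.2⟩
  have hJT : Disjoint (JA ∪ JB) (TA ∪ TB) := by
    rw [disjoint_union_left, disjoint_union_right, disjoint_union_right]
    exact ⟨⟨hJTA, dA1.2⟩, ⟨dA2.1.symm, hJTB⟩⟩
  have hc : Z.card + (JA ∪ JB).card + (TA ∪ TB).card ≤ N := by
    have c1 := card_union_le JA JB
    have c2 := card_union_le TA TB
    omega
  have h2 := z_lem hF hr hZJ hZT hJT hc hμ h0 h1 hm
  rw [hJ, hT] at h2
  -- Jensen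
  have h3 := hF.jensen' hμA hμB (z := wt D Z / (μA + μB)) (div_nonneg (hw Z) hμ0.le)
    (wt D JA) (wt D JB)
  have h4 := hF.jensen hμA hμB (wt D JA + wt D TA) (wt D JB + wt D TB)
  -- the two sides
  have side : ∀ (J T : Finset V) (s : ℕ) (μX : ℝ), Disjoint J T → J.card + T.card ≤ s → 1 ≤ s →
      s ≤ N → 0 < μX → (∀ x ∈ J, D {x} ≤ min 1 μX) → (∀ x ∈ T, min 1 μX ≤ D {x}) →
      (1 ≤ μX → T = ∅) →
      μX * H ((wt D J + wt D T) / μX) ≤
        ∑ e ∈ (powersetCard r (J ∪ T)).filter (fun e => ¬ Disjoint e T), D e +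
          μX * H (wt D J / μX) +
          ∑ x ∈ T, (min 1 μX / s * H (s * D {x} / min 1 μX) - (s.choose r : ℝ) / s * D {x}) := by
    intro J T s μX dJT hs hs1 hsN hμX hJx hTx hT1
    rcases le_or_gt 1 μX with h | h
    · have hTe := hT1 h
      subst hTe
      have e1 : wt D (∅ : Finset V) = 0 := sum_empty
      rw [e1, add_zero, sum_empty, add_zero]
      have : 0 ≤ ∑ e ∈ (powersetCard r (J ∪ ∅)).filter (fun e => ¬ Disjoint e ∅), D e :=
        sum_nonneg fun e _ => h0 e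
      linarith
    · have hmin : min 1 μX = μX := min_eq_right h.le
      rw [hmin] at hJx hTx ⊢
      exact pure_lem hF hr dJT hs hs1 hsN hμX h.le h0 h1 hm hJx hTx
  have h5 := side JA TA sA μA hJTA hsA hsA1 (by omega) hμA hJA hTA hTA1
  have h6 := side JB TB sB μB hJTB hsB hsB1 (by omega) hμB hJB hTB hTB1
  -- bookkeeping
  have e1 : (wt D Z + (wt D JA + wt D TA) + (wt D JB + wt D TB)) / (μA + μB) =
      (wt D Z + (wt D JA + wt D JB + (wt D TA + wt D TB))) / (μA + μB) := by ring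
  have e2 : (wt D Z + (wt D JA + wt D JB)) / (μA + μB) =
      wt D Z / (μA + μB) + (wt D JA + wt D JB) / (μA + μB) := by ring
  have e3 : (wt D JA + wt D TA + (wt D JB + wt D TB)) / (μA + μB) =
      (wt D JA + wt D JB + (wt D TA + wt D TB)) / (μA + μB) := by ring
  rw [e1]
  rw [e2] at h2
  rw [e3] at h4
  linarith

end Pool.Agent.H12.Mader
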