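import Mathlib
import Pool.Agent.H12.Mader.Static
import Pool.Agent.H12.Mader.EvA

set_option autoImplicit false

/-!
# The gap does not decrease along a clean piece
-/

namespace Pool.Agent.H12.Mader

open Finset

variable {V : Type} [DecidableEq V] {r N : ℕ} {H : ℝ → ℝ}

theorem cl_low_subset (Z X : Finset V) (p : ℝ) (D : Finset V → ℝ) (S : Finset V) :
    low Z X p D S ⊆ S := by
  unfold low
  intro x hx
  rw [mem_union, mem_inter, mem_filter, mem_inter] at hx
  rcases hx with h | h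
  · exact h.1
  · exact h.1.1

theorem cl_mem_low {Z X : Finset V} {p : ℝ} {D : Finset V → ℝ} {S : Finset V} {x : V} :
    x ∈ low Z X p D S ↔ x ∈ S ∧ (x ∈ Z ∨ (x ∈ X ∧ D {x} ≤ p)) := by
  unfold low
  rw [mem_union, mem_inter, mem_filter, mem_inter]
  tauto

/-- Pointwise payment. -/
theorem clean_pw {Z A B : Finset V} (dZA : Disjoint Z A) (dZB : Disjoint Z B)
    (dAB : Disjoint A B) {pA pB πA πB : ℝ} (hπ : pA * πA + pB * πB = 1)
    {D DA DB : Finset V → ℝ} (hD : State D)
    (hRA : Rel Z A pA πA D DA) (hRB : Rel Z B pB πB D DB)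
    {S : Finset V} (hS : S ⊆ Z ∪ A ∪ B) {TA TB : Finset V}
    (hTA : TA = (S ∩ A).filter (fun x => pA < D {x}))
    (hTB : TB = (S ∩ B).filter (fun x => pB < D {x})) {e : Finset V}
    (he : e ⊆ S) (hne : e.Nonempty) :
    (if ¬ Disjoint e Z ∧ ¬ Disjoint e (TA ∪ TB) then D e else 0) +
      (if e ⊆ A ∧ ¬ Disjoint e TA then D e else 0) +
      (if e ⊆ B ∧ ¬ Disjoint e TB then D e else 0) +
      (if e ⊆ A ∪ B ∧ ¬ e ⊆ A ∧ ¬ e ⊆ B then D e else 0) +
      pA * (if e ⊆ low Z A pA D S then DA e else 0) +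
      pB * (if e ⊆ low Z B pB D S then DB e else 0) ≤ D e := by
  have hpos : 0 ≤ D e := (hD.pos e).le
  obtain ⟨x0, hx0⟩ := hne
  have dZA' : ∀ x, x ∈ Z → x ∉ A := fun x h1 h2 => Finset.disjoint_left.mp dZA h1 h2
  have dZB' : ∀ x, x ∈ Z → x ∉ B := fun x h1 h2 => Finset.disjoint_left.mp dZB h1 h2
  have dAB' : ∀ x, x ∈ A → x ∉ B := fun x h1 h2 => Finset.disjoint_left.mp dAB h1 h2
  have mTA : ∀ x, x ∈ TA ↔ (x ∈ S ∧ x ∈ A) ∧ pA < D {x} := by
    intro x; rw [hTA, mem_filter, mem_inter]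
  have mTB : ∀ x, x ∈ TB ↔ (x ∈ S ∧ x ∈ B) ∧ pB < D {x} := by
    intro x; rw [hTB, mem_filter, mem_inter]
  by_cases hz : e ⊆ Z
  · -- inside the separator
    have d1 : Disjoint e (TA ∪ TB) := by
      rw [Finset.disjoint_left]
      intro x hx hx2
      rw [mem_union, mTA, mTB] at hx2
      rcases hx2 with h | h
      · exact dZA' x (hz hx) h.1.2
      · exact dZB' x (hz hx) h.1.2
    have d2 : Disjoint e TA := Finset.disjoint_of_subset_right subset_union_left d1
    have d3 : Disjoint e TB := Finset.disjoint_of_subset_right subset_union_right d1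
    have d4 : ¬ e ⊆ A ∪ B := by
      intro h
      have := h hx0
      rw [mem_union] at this
      rcases this with h | h
      · exact dZA' x0 (hz hx0) h
      · exact dZB' x0 (hz hx0) h
    have d5 : e ⊆ low Z A pA D S := by
      intro x hx
      rw [cl_mem_low]
      exact ⟨he hx, Or.inl (hz hx)⟩
    have d6 : e ⊆ low Z B pB D S := by
      intro x hx
      rw [cl_mem_low]
      exact ⟨he hx, Or.inl (hz hx)⟩
    rw [if_neg (fun h => h.2 d1), if_neg (fun h => h.2 d2), if_neg (fun h => h.2 d3),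
      if_neg (fun h => d4 h.1), if_pos d5, if_pos d6, hRA.z e hz, hRB.z e hz]
    have : 0 + 0 + 0 + 0 + pA * (πA * D e) + pB * (πB * D e) = (pA * πA + pB * πB) * D e := by
      ring
    rw [this, hπ, one_mul]
  · by_cases hA : e ⊆ low Z A pA D S
    · have e1 : e ⊆ Z ∪ A := by
        intro x hx
        have := hA hx
        rw [cl_mem_low] at this
        rw [mem_union]
        tauto
      have d2 : Disjoint e TA := by
        rw [Finset.disjoint_left]
        intro x hx hx2
        rw [mTA] at hx2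
        have := hA hx
        rw [cl_mem_low] at this
        rcases this.2 with h | h
        · exact dZA' x h hx2.1.2
        · exact absurd h.2 (not_le.mpr hx2.2)
      have d3 : Disjoint e TB := by
        rw [Finset.disjoint_left]
        intro x hx hx2
        rw [mTB] at hx2
        have := hA hx
        rw [cl_mem_low] at this
        rcases this.2 with h | h
        · exact dZB' x h hx2.1.2
        · exact dAB' x h.1 hx2.1.2
      have d1 : Disjoint e (TA ∪ TB) := by
        rw [Finset.disjoint_union_right]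
        exact ⟨d2, d3⟩
      have d4 : ¬ (e ⊆ A ∪ B ∧ ¬ e ⊆ A ∧ ¬ e ⊆ B) := by
        rintro ⟨h1, h2, -⟩
        apply h2
        intro x hx
        have h3 := h1 hx
        have h4 := e1 hx
        rw [mem_union] at h3 h4
        rcases h3 with h | h
        · exact h
        · rcases h4 with h' | h'
          · exact absurd h (dZB' x h')
          · exact h'
      have d5 : ¬ e ⊆ low Z B pB D S := by
        intro h
        apply hz
        intro x hx
        have h3 := h hx
        have h4 := e1 hx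
        rw [cl_mem_low] at h3
        rw [mem_union] at h4
        rcases h4 with h' | h'
        · exact h'
        · rcases h3.2 with h'' | h''
          · exact h''
          · exact absurd h''.1 (dAB' x h')
      rw [if_neg (fun h => h.2 d1), if_neg (fun h => h.2 d2), if_neg (fun h => h.2 d3),
        if_neg d4, if_pos hA, if_neg d5]
      have := hRA.le e e1 hz
      linarith only [this]
    · by_cases hB : e ⊆ low Z B pB D S
      · have e1 : e ⊆ Z ∪ B := by
          intro x hx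
          have := hB hx
          rw [cl_mem_low] at this
          rw [mem_union]
          tauto
        have d3 : Disjoint e TB := by
          rw [Finset.disjoint_left]
          intro x hx hx2
          rw [mTB] at hx2
          have := hB hx
          rw [cl_mem_low] at this
          rcases this.2 with h | h
          · exact dZB' x h hx2.1.2
          · exact absurd h.2 (not_le.mpr hx2.2)
        have d2 : Disjoint e TA := by
          rw [Finset.disjoint_left]
          intro x hx hx2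
          rw [mTA] at hx2
          have := hB hx
          rw [cl_mem_low] at this
          rcases this.2 with h | h
          · exact dZA' x h hx2.1.2
          · exact dAB' x hx2.1.2 h.1
        have d1 : Disjoint e (TA ∪ TB) := by
          rw [Finset.disjoint_union_right]
          exact ⟨d2, d3⟩
        have d4 : ¬ (e ⊆ A ∪ B ∧ ¬ e ⊆ A ∧ ¬ e ⊆ B) := by
          rintro ⟨h1, -, h2⟩
          apply h2
          intro x hx
          have h3 := h1 hx
          have h4 := e1 hx
          rw [mem_union] at h3 h4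
          rcases h3 with h | h
          · rcases h4 with h' | h'
            · exact absurd h (dZA' x h')
            · exact h'
          · exact h
        rw [if_neg (fun h => h.2 d1), if_neg (fun h => h.2 d2), if_neg (fun h => h.2 d3),
          if_neg d4, if_neg hA, if_pos hB]
        have := hRB.le e e1 hz
        linarith only [this]
      · rw [if_neg hA, if_neg hB]
        by_cases h1 : Disjoint e Z
        · rw [if_neg (fun h => h.1 h1)]
          have e1 : e ⊆ A ∪ B := by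
            intro x hx
            have h2 := hS (he hx)
            rw [mem_union, mem_union] at h2
            rw [mem_union]
            rcases h2 with (h2 | h2) | h2
            · exact absurd h2 (Finset.disjoint_left.mp h1 hx)
            · exact Or.inl h2
            · exact Or.inr h2
          by_cases h2 : e ⊆ A
          · have h3 : ¬ e ⊆ B := fun h => dAB' x0 (h2 hx0) (h hx0)
            rw [if_neg (fun h => h3 h.1 : ¬ (e ⊆ B ∧ ¬ Disjoint e TB)),
              if_neg (fun h => h.2.1 h2 : ¬ (e ⊆ A ∪ B ∧ ¬ e ⊆ A ∧ ¬ e ⊆ B))]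
            split_ifs <;> linarith only [hpos]
          · rw [if_neg (fun h => h2 h.1 : ¬ (e ⊆ A ∧ ¬ Disjoint e TA))]
            by_cases h3 : e ⊆ B
            · rw [if_neg (fun h => h.2.2 h3 : ¬ (e ⊆ A ∪ B ∧ ¬ e ⊆ A ∧ ¬ e ⊆ B))]
              split_ifs <;> linarith only [hpos]
            · rw [if_neg (fun h => h3 h.1 : ¬ (e ⊆ B ∧ ¬ Disjoint e TB)), if_pos ⟨e1, h2, h3⟩]
              linarith only [hpos]
        · obtain ⟨y, hy1, hy2⟩ := Finset.not_disjoint_iff.mp h1
          have h2 : ¬ e ⊆ A := fun h => dZA' y hy2 (h hy1)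
          have h3 : ¬ e ⊆ B := fun h => dZB' y hy2 (h hy1)
          have h4 : ¬ e ⊆ A ∪ B := by
            intro h
            have := h hy1
            rw [mem_union] at this
            rcases this with h | h
            · exact dZA' y hy2 h
            · exact dZB' y hy2 h
          rw [if_neg (fun h => h2 h.1 : ¬ (e ⊆ A ∧ ¬ Disjoint e TA)),
            if_neg (fun h => h3 h.1 : ¬ (e ⊆ B ∧ ¬ Disjoint e TB)),
            if_neg (fun h => h4 h.1 : ¬ (e ⊆ A ∪ B ∧ ¬ e ⊆ A ∧ ¬ e ⊆ B))]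
          split_ifs <;> linarith only [hpos]

/-- The subsets of `U` inside `S ⊆ U`. -/
theorem cl_sum_ite_subset {U S : Finset V} (hS : S ⊆ U) (f : Finset V → ℝ) :
    ∑ e ∈ powersetCard r U, (if e ⊆ S then f e else 0) = ∑ e ∈ powersetCard r S, f e := by
  rw [← Finset.sum_filter]
  apply Finset.sum_congr _ (fun _ _ => rfl)
  ext e
  rw [mem_filter, mem_powersetCard, mem_powersetCard]
  constructor
  · rintro ⟨⟨-, h2⟩, h3⟩
    exact ⟨h3, h2⟩
  · rintro ⟨h1, h2⟩
    exact ⟨⟨h1.trans hS, h2⟩, h1⟩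

/-- The change of the total cost. -/
theorem cl_CC_run {U S : Finset V} (hS : S ⊆ U) (t : ℝ) (D : Finset V → ℝ) :
    CC r U (run S t D) = CC r U D + (1 - t) * ∑ e ∈ powersetCard r S, D e := by
  unfold CC
  rw [Finset.mul_sum, ← cl_sum_ite_subset hS, ← Finset.sum_add_distrib]
  apply Finset.sum_congr rfl
  intro e _
  unfold run
  split_ifs <;> ring

/-- The change of the crossing cost. -/
theorem cl_cross_run (A B S : Finset V) (t : ℝ) (D : Finset V → ℝ) :
    ∑ e ∈ cross r A B, (1 - run S t D e) = ∑ e ∈ cross r A B, (1 - D e) +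
      (1 - t) * ∑ e ∈ powersetCard r S, (if e ⊆ A ∪ B ∧ ¬ e ⊆ A ∧ ¬ e ⊆ B then D e else 0) := by
  have h1 : ∑ e ∈ powersetCard r S, (if e ⊆ A ∪ B ∧ ¬ e ⊆ A ∧ ¬ e ⊆ B then D e else 0) =
      ∑ e ∈ cross r A B, (if e ⊆ S then D e else 0) := by
    rw [← Finset.sum_filter, ← Finset.sum_filter]
    apply Finset.sum_congr _ (fun _ _ => rfl)
    ext e
    unfold cross
    rw [mem_filter, mem_filter, mem_filter, mem_powersetCard, mem_powersetCard]
    tauto
  rw [h1, Finset.mul_sum, ← Finset.sum_add_distrib]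
  apply Finset.sum_congr rfl
  intro e _
  unfold run
  split_ifs <;> ring

/-- The total payment. -/
theorem clean_sum (hr : 3 ≤ r) {Z A B : Finset V} (dZA : Disjoint Z A) (dZB : Disjoint Z B)
    (dAB : Disjoint A B) {pA pB πA πB : ℝ} (hπ : pA * πA + pB * πB = 1)
    {D DA DB : Finset V → ℝ} (hD : State D)
    (hRA : Rel Z A pA πA D DA) (hRB : Rel Z B pB πB D DB)
    {S : Finset V} (hS : S ⊆ Z ∪ A ∪ B) {JA TA JB TB : Finset V}
    (hJA : JA = (S ∩ A).filter (fun x => D {x} ≤ pA))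
    (hTA : TA = (S ∩ A).filter (fun x => pA < D {x}))
    (hJB : JB = (S ∩ B).filter (fun x => D {x} ≤ pB))
    (hTB : TB = (S ∩ B).filter (fun x => pB < D {x})) :
    (∑ e ∈ (powersetCard r ((S ∩ Z) ∪ ((JA ∪ JB) ∪ (TA ∪ TB)))).filter
          (fun e => ¬ Disjoint e (S ∩ Z) ∧ ¬ Disjoint e (TA ∪ TB)), D e) +
      (∑ e ∈ (powersetCard r (JA ∪ TA)).filter (fun e => ¬ Disjoint e TA), D e) +
      (∑ e ∈ (powersetCard r (JB ∪ TB)).filter (fun e => ¬ Disjoint e TB), D e) +
      (∑ e ∈ powersetCard r S, (if e ⊆ A ∪ B ∧ ¬ e ⊆ A ∧ ¬ e ⊆ B then D e else 0)) +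
      pA * (∑ e ∈ powersetCard r (low Z A pA D S), DA e) +
      pB * (∑ e ∈ powersetCard r (low Z B pB D S), DB e) ≤ ∑ e ∈ powersetCard r S, D e := by
  have mTA : ∀ x, x ∈ TA ↔ (x ∈ S ∧ x ∈ A) ∧ pA < D {x} := by
    intro x; rw [hTA, mem_filter, mem_inter]
  have mTB : ∀ x, x ∈ TB ↔ (x ∈ S ∧ x ∈ B) ∧ pB < D {x} := by
    intro x; rw [hTB, mem_filter, mem_inter]
  have mJA : ∀ x, x ∈ JA ↔ (x ∈ S ∧ x ∈ A) ∧ D {x} ≤ pA := by
    intro x; rw [hJA, mem_filter, mem_inter]
  have mJB : ∀ x, x ∈ JB ↔ (x ∈ S ∧ x ∈ B) ∧ D {x} ≤ pB := by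
    intro x; rw [hJB, mem_filter, mem_inter]
  have eA : JA ∪ TA = S ∩ A := by
    ext x
    rw [mem_union, mJA, mTA, mem_inter]
    constructor
    · rintro (h | h)
      · exact h.1
      · exact h.1
    · intro h
      rcases le_or_gt (D {x}) pA with h' | h'
      · exact Or.inl ⟨h, h'⟩
      · exact Or.inr ⟨h, h'⟩
  have eB : JB ∪ TB = S ∩ B := by
    ext x
    rw [mem_union, mJB, mTB, mem_inter]
    constructor
    · rintro (h | h)
      · exact h.1
      · exact h.1
    · intro h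
      rcases le_or_gt (D {x}) pB with h' | h'
      · exact Or.inl ⟨h, h'⟩
      · exact Or.inr ⟨h, h'⟩
  have eS : (S ∩ Z) ∪ ((JA ∪ JB) ∪ (TA ∪ TB)) = S := by
    have h1 : (JA ∪ JB) ∪ (TA ∪ TB) = (JA ∪ TA) ∪ (JB ∪ TB) := by
      rw [Finset.union_union_union_comm]
    rw [h1, eA, eB]
    ext x
    have := @hS x
    simp only [mem_union, mem_inter] at this ⊢
    tauto
  have s1 : (∑ e ∈ (powersetCard r ((S ∩ Z) ∪ ((JA ∪ JB) ∪ (TA ∪ TB)))).filter
          (fun e => ¬ Disjoint e (S ∩ Z) ∧ ¬ Disjoint e (TA ∪ TB)), D e) =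
      ∑ e ∈ powersetCard r S, (if ¬ Disjoint e Z ∧ ¬ Disjoint e (TA ∪ TB) then D e else 0) := by
    rw [eS, Finset.sum_filter]
    apply Finset.sum_congr rfl
    intro e he
    rw [mem_powersetCard] at he
    have : Disjoint e (S ∩ Z) ↔ Disjoint e Z := by
      rw [Finset.disjoint_left, Finset.disjoint_left]
      constructor
      · intro h x hx hx2
        exact h hx (mem_inter.mpr ⟨he.1 hx, hx2⟩)
      · intro h x hx hx2
        exact h hx (mem_inter.mp hx2).2
    simp only [this]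
  have gen : ∀ (X J T : Finset V), J ∪ T = S ∩ X →
      (∑ e ∈ (powersetCard r (J ∪ T)).filter (fun e => ¬ Disjoint e T), D e) =
      ∑ e ∈ powersetCard r S, (if e ⊆ X ∧ ¬ Disjoint e T then D e else 0) := by
    intro X J T h
    rw [h, ← Finset.sum_filter]
    apply Finset.sum_congr _ (fun _ _ => rfl)
    ext e
    rw [mem_filter, mem_filter, mem_powersetCard, mem_powersetCard, Finset.subset_inter_iff]
    tauto
  rw [s1, gen A JA TA eA, gen B JB TB eB, ← cl_sum_ite_subset (cl_low_subset Z A pA D S) DA,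
    ← cl_sum_ite_subset (cl_low_subset Z B pB D S) DB, Finset.mul_sum, Finset.mul_sum,
    ← Finset.sum_add_distrib, ← Finset.sum_add_distrib, ← Finset.sum_add_distrib,
    ← Finset.sum_add_distrib, ← Finset.sum_add_distrib]
  apply Finset.sum_le_sum
  intro e he
  rw [mem_powersetCard] at he
  have hne : e.Nonempty := by
    rw [← Finset.card_pos, he.2]
    omega
  exact clean_pw dZA dZB dAB hπ hD hRA hRB hS hTA hTB he.1 hne

omit [DecidableEq V] in
theorem cl_wt_mul (D : Finset V → ℝ) (S : Finset V) (u : ℝ) :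
    wt (fun e => u * D e) S = u * wt D S := by
  unfold wt
  rw [Finset.mul_sum]

omit [DecidableEq V] in
theorem cl_wt_nonneg {D : Finset V → ℝ} (hD : State D) (S : Finset V) : 0 ≤ wt D S := by
  unfold wt
  exact Finset.sum_nonneg (fun x _ => (hD.pos _).le)

/-- The weight of the set run in the child. -/
theorem cl_wt_low {Z X : Finset V} (dZX : Disjoint Z X) {p π : ℝ} (hp : 0 < p)
    {D D' : Finset V → ℝ} (hR : Rel Z X p π D D') (S : Finset V) :
    wt D' (low Z X p D S) =
      π * wt D (S ∩ Z) + wt D ((S ∩ X).filter (fun x => D {x} ≤ p)) / p := by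
  unfold wt low
  have hdis : Disjoint (S ∩ Z) ((S ∩ X).filter (fun x => D {x} ≤ p)) := by
    rw [Finset.disjoint_left]
    intro x hx hx2
    rw [mem_inter] at hx
    rw [mem_filter, mem_inter] at hx2
    exact Finset.disjoint_left.mp dZX hx.2 hx2.1.2
  rw [Finset.sum_union hdis, Finset.mul_sum, Finset.sum_div]
  congr 1
  · apply Finset.sum_congr rfl
    intro x hx
    rw [mem_inter] at hx
    exact hR.z {x} (by rw [Finset.singleton_subset_iff]; exact hx.2)
  · apply Finset.sum_congr rfl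
    intro x hx
    rw [mem_filter, mem_inter] at hx
    rw [hR.sing x hx.1.2]
    apply min_eq_right
    rw [div_le_one hp]
    exact hx.2

/-- The change of the state function. -/
theorem cl_Om_run (X S : Finset V) {p t : ℝ} (hp : 0 < p) (h1 : t ≤ 1)
    {D : Finset V → ℝ} (hD : State D)
    (hc : ∀ x ∈ S ∩ X, D {x} ≤ p ∨ p ≤ t * D {x}) :
    Om H r X p D - Om H r X p (run S t D) =
      ∑ x ∈ (S ∩ X).filter (fun x => p < D {x}),
        (p / X.card * (hh H (X.card * D {x} / p) - hh H (t * (X.card * D {x} / p))) -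
          (1 - t) * ((X.card.choose r : ℝ) / X.card * D {x})) := by
  unfold Om
  rw [← Finset.sum_sub_distrib]
  symm
  have hsub : (S ∩ X).filter (fun x => p < D {x}) ⊆ X := by
    intro x hx
    rw [mem_filter, mem_inter] at hx
    exact hx.1.2
  rw [← Finset.sum_subset hsub]
  · apply Finset.sum_congr rfl
    intro x hx
    rw [mem_filter, mem_inter] at hx
    have hr : run S t D {x} = t * D {x} := by
      unfold run
      rw [if_pos (by rw [Finset.singleton_subset_iff]; exact hx.1.1)]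
    have h2 : p ≤ t * D {x} := by
      rcases hc x (mem_inter.mpr hx.1) with h | h
      · exact absurd hx.2 (not_lt.mpr h)
      · exact h
    rw [hr]
    unfold om
    rw [if_pos hx.2.le, if_pos h2]
    have e1 : (X.card : ℝ) * (t * D {x}) / p = t * (X.card * D {x} / p) := by ring
    rw [e1]
    ring
  · intro x hx hx2
    rw [mem_filter, mem_inter, not_and] at hx2
    unfold run
    by_cases hs : x ∈ S
    · rw [if_pos (by rw [Finset.singleton_subset_iff]; exact hs)]
      have h3 : D {x} ≤ p := not_lt.mp (hx2 ⟨hs, hx⟩)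
      have om0 : ∀ u : ℝ, u ≤ p → om H r X.card p u = 0 := by
        intro u hu
        unfold om
        split_ifs with h4
        · have : u = p := le_antisymm hu h4
          rw [this, sub_self, mul_div_assoc, div_self hp.ne', mul_one, sub_self]
          ring
        · rfl
      have h4 : t * D {x} ≤ p := by
        have := hD.pos {x}
        nlinarith
      rw [om0 _ h3, om0 _ h4, sub_zero]
    · rw [if_neg (by rw [Finset.singleton_subset_iff]; exact hs), sub_self]

theorem cl_Om_run' (X S : Finset V) {p t : ℝ} (hp : 0 < p) (h1 : t ≤ 1)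
    {D : Finset V → ℝ} (hD : State D)
    (hc : ∀ x ∈ S ∩ X, D {x} ≤ p ∨ p ≤ t * D {x}) :
    Om H r X p D - Om H r X p (run S t D) =
      (∑ x ∈ (S ∩ X).filter (fun x => p < D {x}),
        p / X.card * (hh H (X.card * D {x} / p) - hh H (t * (X.card * D {x} / p)))) -
        (1 - t) * ∑ x ∈ (S ∩ X).filter (fun x => p < D {x}),
          (X.card.choose r : ℝ) / X.card * D {x} := by
  rw [cl_Om_run X S hp h1 hD hc, Finset.sum_sub_distrib]
  congr 1
  rw [Finset.mul_sum]

/-- The static inequality, for the scaled state. -/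
theorem cl_static (hF : Fn r N H) (hr : 3 ≤ r) {Z A B : Finset V} (dZA : Disjoint Z A)
    (dZB : Disjoint Z B) (dAB : Disjoint A B) (hA : A.Nonempty) (hB : B.Nonempty)
    (hN : Z.card + A.card + B.card ≤ N) {μA μB : ℝ} (hμA : 0 < μA) (hμB : 0 < μB)
    (hμ : 1 ≤ μA + μB) {D : Finset V → ℝ} (hD : State D)
    {S : Finset V} {t : ℝ} (h0 : 0 < t)
    (hcA : ∀ x ∈ S ∩ A, D {x} ≤ min 1 μA ∨ min 1 μA ≤ t * D {x})
    (hcB : ∀ x ∈ S ∩ B, D {x} ≤ min 1 μB ∨ min 1 μB ≤ t * D {x})
    {JA TA JB TB : Finset V}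
    (hJA : JA = (S ∩ A).filter (fun x => D {x} ≤ min 1 μA))
    (hTA : TA = (S ∩ A).filter (fun x => min 1 μA < D {x}))
    (hJB : JB = (S ∩ B).filter (fun x => D {x} ≤ min 1 μB))
    (hTB : TB = (S ∩ B).filter (fun x => min 1 μB < D {x}))
    {u : ℝ} (hu0 : t ≤ u) (hu1 : u ≤ 1) :
    (μA + μB) * H ((wt D (S ∩ Z) + (wt D JA + wt D TA) + (wt D JB + wt D TB)) / (μA + μB) * u) ≤
      u * ((∑ e ∈ (powersetCard r ((S ∩ Z) ∪ ((JA ∪ JB) ∪ (TA ∪ TB)))).filter
          (fun e => ¬ Disjoint e (S ∩ Z) ∧ ¬ Disjoint e (TA ∪ TB)), D e) +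
      (∑ e ∈ (powersetCard r (JA ∪ TA)).filter (fun e => ¬ Disjoint e TA), D e) +
      (∑ e ∈ (powersetCard r (JB ∪ TB)).filter (fun e => ¬ Disjoint e TB), D e)) +
      μA * H ((wt D (S ∩ Z) / (μA + μB) + wt D JA / μA) * u) +
      μB * H ((wt D (S ∩ Z) / (μA + μB) + wt D JB / μB) * u) +
      ((∑ x ∈ TA, min 1 μA / A.card * H (A.card * D {x} / min 1 μA * u)) -
        u * ∑ x ∈ TA, (A.card.choose r : ℝ) / A.card * D {x}) +
      ((∑ x ∈ TB, min 1 μB / B.card * H (B.card * D {x} / min 1 μB * u)) -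
        u * ∑ x ∈ TB, (B.card.choose r : ℝ) / B.card * D {x}) := by
  have hu : 0 < u := lt_of_lt_of_le h0 hu0
  have mTA : ∀ x, x ∈ TA ↔ (x ∈ S ∧ x ∈ A) ∧ min 1 μA < D {x} := by
    intro x; rw [hTA, mem_filter, mem_inter]
  have mTB : ∀ x, x ∈ TB ↔ (x ∈ S ∧ x ∈ B) ∧ min 1 μB < D {x} := by
    intro x; rw [hTB, mem_filter, mem_inter]
  have mJA : ∀ x, x ∈ JA ↔ (x ∈ S ∧ x ∈ A) ∧ D {x} ≤ min 1 μA := by
    intro x; rw [hJA, mem_filter, mem_inter]
  have mJB : ∀ x, x ∈ JB ↔ (x ∈ S ∧ x ∈ B) ∧ D {x} ≤ min 1 μB := by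
    intro x; rw [hJB, mem_filter, mem_inter]
  have dJTA : Disjoint JA TA := by
    rw [Finset.disjoint_left]
    intro x h1 h2
    rw [mJA] at h1
    rw [mTA] at h2
    exact absurd h1.2 (not_le.mpr h2.2)
  have dJTB : Disjoint JB TB := by
    rw [Finset.disjoint_left]
    intro x h1 h2
    rw [mJB] at h1
    rw [mTB] at h2
    exact absurd h1.2 (not_le.mpr h2.2)
  have sA : JA ∪ TA ⊆ A := by
    intro x hx
    rw [mem_union, mJA, mTA] at hx
    rcases hx with h | h
    · exact h.1.2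
    · exact h.1.2
  have sB : JB ∪ TB ⊆ B := by
    intro x hx
    rw [mem_union, mJB, mTB] at hx
    rcases hx with h | h
    · exact h.1.2
    · exact h.1.2
  have cA : JA.card + TA.card ≤ A.card := by
    rw [← Finset.card_union_of_disjoint dJTA]
    exact Finset.card_le_card sA
  have cB : JB.card + TB.card ≤ B.card := by
    rw [← Finset.card_union_of_disjoint dJTB]
    exact Finset.card_le_card sB
  have cZ : (S ∩ Z).card + A.card + B.card ≤ N := by
    have := Finset.card_le_card (Finset.inter_subset_right : S ∩ Z ⊆ Z)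
    omega
  have d1 : Disjoint (S ∩ Z) (JA ∪ TA) :=
    Finset.disjoint_of_subset_left Finset.inter_subset_right
      (Finset.disjoint_of_subset_right sA dZA)
  have d2 : Disjoint (S ∩ Z) (JB ∪ TB) :=
    Finset.disjoint_of_subset_left Finset.inter_subset_right
      (Finset.disjoint_of_subset_right sB dZB)
  have d3 : Disjoint (JA ∪ TA) (JB ∪ TB) :=
    Finset.disjoint_of_subset_left sA (Finset.disjoint_of_subset_right sB dAB)
  have key := static_lem hF hr (D := fun e => u * D e) d1 d2 d3 dJTA dJTB cA cB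
    (Finset.card_pos.mpr hA) (Finset.card_pos.mpr hB) cZ hμA hμB hμ
    (fun e => mul_nonneg hu.le (hD.pos e).le)
    (fun e => by
      have h1 := hD.le_one e
      have h2 := (hD.pos e).le
      calc u * D e ≤ 1 * D e := mul_le_mul_of_nonneg_right hu1 h2
        _ = D e := one_mul _
        _ ≤ 1 := h1)
    (fun e f hef => mul_le_mul_of_nonneg_left (hD.mono e f hef) hu.le)
    (fun x hx => by
      rw [mJA] at hx
      have h2 := (hD.pos {x}).le
      calc u * D {x} ≤ 1 * D {x} := mul_le_mul_of_nonneg_right hu1 h2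
        _ = D {x} := one_mul _
        _ ≤ min 1 μA := hx.2)
    (fun x hx => by
      rw [mTA] at hx
      have h2 := (hD.pos {x}).le
      rcases hcA x (mem_inter.mpr hx.1) with h | h
      · exact absurd hx.2 (not_lt.mpr h)
      · exact h.trans (mul_le_mul_of_nonneg_right hu0 h2))
    (fun h => by
      rw [Finset.eq_empty_iff_forall_notMem]
      intro x hx
      rw [mTA, min_eq_left h] at hx
      exact absurd hx.2 (not_lt.mpr (hD.le_one _)))
    (fun x hx => by
      rw [mJB] at hx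
      have h2 := (hD.pos {x}).le
      calc u * D {x} ≤ 1 * D {x} := mul_le_mul_of_nonneg_right hu1 h2
        _ = D {x} := one_mul _
        _ ≤ min 1 μB := hx.2)
    (fun x hx => by
      rw [mTB] at hx
      have h2 := (hD.pos {x}).le
      rcases hcB x (mem_inter.mpr hx.1) with h | h
      · exact absurd hx.2 (not_lt.mpr h)
      · exact h.trans (mul_le_mul_of_nonneg_right hu0 h2))
    (fun h => by
      rw [Finset.eq_empty_iff_forall_notMem]
      intro x hx
      rw [mTB, min_eq_left h] at hx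
      exact absurd hx.2 (not_lt.mpr (hD.le_one _)))
  simp only [cl_wt_mul] at key
  rw [← Finset.mul_sum, ← Finset.mul_sum, ← Finset.mul_sum, Finset.sum_sub_distrib,
    Finset.sum_sub_distrib] at key
  have e1 : (u * wt D (S ∩ Z) + (u * wt D JA + u * wt D TA) + (u * wt D JB + u * wt D TB)) /
      (μA + μB) =
      (wt D (S ∩ Z) + (wt D JA + wt D TA) + (wt D JB + wt D TB)) / (μA + μB) * u := by ring
  have e2 : u * wt D (S ∩ Z) / (μA + μB) + u * wt D JA / μA =
      (wt D (S ∩ Z) / (μA + μB) + wt D JA / μA) * u := by ring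
  have e3 : u * wt D (S ∩ Z) / (μA + μB) + u * wt D JB / μB =
      (wt D (S ∩ Z) / (μA + μB) + wt D JB / μB) * u := by ring
  have e4 : ∀ (X T : Finset V) (p : ℝ),
      ∑ x ∈ T, p / X.card * H (X.card * (u * D {x}) / p) =
      ∑ x ∈ T, p / X.card * H (X.card * D {x} / p * u) := by
    intro X T p
    apply Finset.sum_congr rfl
    intro x _
    rw [show (X.card : ℝ) * (u * D {x}) / p = X.card * D {x} / p * u by ring]
  have e5 : ∀ (X T : Finset V),
      ∑ x ∈ T, (X.card.choose r : ℝ) / X.card * (u * D {x}) =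
      u * ∑ x ∈ T, (X.card.choose r : ℝ) / X.card * D {x} := by
    intro X T
    rw [Finset.mul_sum]
    apply Finset.sum_congr rfl
    intro x _
    ring
  rw [e1, e2, e3, e4 A TA, e4 B TB, e5 A TA, e5 B TB] at key
  linarith only [key]

omit [DecidableEq V] in
/-- The integrated static inequality. -/
theorem cl_integ (hF : Fn r N H) (hr : 3 ≤ r) {TA TB : Finset V} {m μA μB aS aA aB : ℝ}
    {cA cB : ℝ} {gA gB : V → ℝ} {K t : ℝ} (h0 : 0 < t) (h1 : t ≤ 1)
    (hS : 0 ≤ aS) (hA : 0 ≤ aA) (hB : 0 ≤ aB) (hgA : ∀ x ∈ TA, 0 ≤ gA x)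
    (hgB : ∀ x ∈ TB, 0 ≤ gB x)
    (hst : ∀ u, t ≤ u → u ≤ 1 → m * H (aS * u) ≤ u * K + μA * H (aA * u) + μB * H (aB * u) +
      ∑ x ∈ TA, cA * H (gA x * u) + ∑ x ∈ TB, cB * H (gB x * u)) :
    m * (hh H aS - hh H (t * aS)) ≤ (1 - t) * K + μA * (hh H aA - hh H (t * aA)) +
      μB * (hh H aB - hh H (t * aB)) + ∑ x ∈ TA, cA * (hh H (gA x) - hh H (t * gA x)) +
      ∑ x ∈ TB, cB * (hh H (gB x) - hh H (t * gB x)) := by
  have key := integ hF hr (ι := Fin 3 ⊕ (V ⊕ V))
    ((Finset.univ : Finset (Fin 3)).disjSum (TA.disjSum TB))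
    (Sum.elim ![-m, μA, μB] (Sum.elim (fun _ => cA) (fun _ => cB)))
    (Sum.elim ![aS, aA, aB] (Sum.elim gA gB)) (K := K) (t := t)
    (by
      intro i hi
      rw [Finset.mem_disjSum] at hi
      rcases hi with ⟨j, -, rfl⟩ | ⟨j, hj, rfl⟩
      · rw [Sum.elim_inl]
        fin_cases j
        · exact hS
        · exact hA
        · exact hB
      · rw [Sum.elim_inr]
        rw [Finset.mem_disjSum] at hj
        rcases hj with ⟨x, hx, rfl⟩ | ⟨x, hx, rfl⟩
        · rw [Sum.elim_inl]; exact hgA x hx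
        · rw [Sum.elim_inr]; exact hgB x hx)
    h0 h1
    (by
      intro u hu hu1
      rw [Finset.sum_disjSum, Finset.sum_disjSum, Fin.sum_univ_three]
      simp only [Sum.elim_inl, Sum.elim_inr]
      have h := hst u hu hu1
      simp only [Matrix.cons_val_zero, Matrix.cons_val_one, Matrix.cons_val]
      linarith only [h])
  rw [Finset.sum_disjSum, Finset.sum_disjSum, Fin.sum_univ_three] at key
  simp only [Sum.elim_inl, Sum.elim_inr] at key
  simp only [Matrix.cons_val_zero, Matrix.cons_val_one, Matrix.cons_val] at key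
  linarith only [key]

/-- The gap does not decrease along a clean piece. -/
theorem clean_step (hF : Fn r N H) (hr : 3 ≤ r) {Z A B : Finset V} (dZA : Disjoint Z A)
    (dZB : Disjoint Z B) (dAB : Disjoint A B) (hA : A.Nonempty) (hB : B.Nonempty)
    (hN : Z.card + A.card + B.card ≤ N) {μA μB : ℝ} (hμA : 0 < μA) (hμB : 0 < μB)
    (hμ : 1 ≤ μA + μB) {D DA DB : Finset V → ℝ} {Y YA YB : ℝ}
    (hD : State D) (hDA : State DA) (hDB : State DB)
    (hRA : Rel Z A (min 1 μA) (max 1 μA / (μA + μB)) D DA)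
    (hRB : Rel Z B (min 1 μB) (max 1 μB / (μA + μB)) D DB)
    {S : Finset V} (hS : S ⊆ Z ∪ A ∪ B) {t : ℝ} (h0 : 0 < t) (h1 : t ≤ 1)
    (hcA : ∀ x ∈ S ∩ A, D {x} ≤ min 1 μA ∨ min 1 μA ≤ t * D {x})
    (hcB : ∀ x ∈ S ∩ B, D {x} ≤ min 1 μB ∨ min 1 μB ≤ t * D {x}) :
    Gap H r Z A B (min 1 μA) (min 1 μB) D Y DA YA DB YB ≤
      Gap H r Z A B (min 1 μA) (min 1 μB)
        (run S t D)
        (Y + (μA + μB) * (hh H (wt D S / (μA + μB)) - hh H (t * wt D S / (μA + μB))))
        (run (low Z A (min 1 μA) D S) t DA)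
        (YA + max 1 μA * (hh H (wt DA (low Z A (min 1 μA) D S) / max 1 μA) -
          hh H (t * wt DA (low Z A (min 1 μA) D S) / max 1 μA)))
        (run (low Z B (min 1 μB) D S) t DB)
        (YB + max 1 μB * (hh H (wt DB (low Z B (min 1 μB) D S) / max 1 μB) -
          hh H (t * wt DB (low Z B (min 1 μB) D S) / max 1 μB))) := by
  have _ := hDA
  have _ := hDB
  obtain ⟨pA, hpA⟩ : ∃ p, p = min 1 μA := ⟨_, rfl⟩
  obtain ⟨pB, hpB⟩ : ∃ p, p = min 1 μB := ⟨_, rfl⟩
  obtain ⟨mA, hmA⟩ : ∃ p, p = max 1 μA := ⟨_, rfl⟩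
  obtain ⟨mB, hmB⟩ : ∃ p, p = max 1 μB := ⟨_, rfl⟩
  have hpA0 : 0 < pA := by rw [hpA]; exact lt_min one_pos hμA
  have hpB0 : 0 < pB := by rw [hpB]; exact lt_min one_pos hμB
  have hmA0 : 0 < mA := by rw [hmA]; exact lt_of_lt_of_le one_pos (le_max_left _ _)
  have hmB0 : 0 < mB := by rw [hmB]; exact lt_of_lt_of_le one_pos (le_max_left _ _)
  have hμ0 : 0 < μA + μB := add_pos hμA hμB
  have hprA : pA * mA = μA := by rw [hpA, hmA, min_mul_max, one_mul]
  have hprB : pB * mB = μB := by rw [hpB, hmB, min_mul_max, one_mul]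
  have hπ : pA * (mA / (μA + μB)) + pB * (mB / (μA + μB)) = 1 := by
    rw [← mul_div_assoc, ← mul_div_assoc, hprA, hprB, ← add_div, div_self hμ0.ne']
  obtain ⟨JA, hJA⟩ : ∃ J, J = (S ∩ A).filter (fun x => D {x} ≤ pA) := ⟨_, rfl⟩
  obtain ⟨TA, hTA⟩ : ∃ J, J = (S ∩ A).filter (fun x => pA < D {x}) := ⟨_, rfl⟩
  obtain ⟨JB, hJB⟩ : ∃ J, J = (S ∩ B).filter (fun x => D {x} ≤ pB) := ⟨_, rfl⟩
  obtain ⟨TB, hTB⟩ : ∃ J, J = (S ∩ B).filter (fun x => pB < D {x}) := ⟨_, rfl⟩
  have stat := fun u (hu0 : t ≤ u) (hu1 : u ≤ 1) =>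
    cl_static hF hr (JA := JA) (TA := TA) (JB := JB) (TB := TB) dZA dZB dAB hA hB hN hμA hμB
      hμ hD h0 hcA hcB
      (by rw [← hpA]; exact hJA) (by rw [← hpA]; exact hTA)
      (by rw [← hpB]; exact hJB) (by rw [← hpB]; exact hTB) hu0 hu1
  rw [← hpA] at hRA hcA
  rw [← hpB] at hRB hcB
  rw [← hmA] at hRA
  rw [← hmB] at hRB
  rw [← hpA, ← hpB] at stat
  rw [← hpA, ← hpB, ← hmA, ← hmB]
  -- the weights
  have wS : wt D S = wt D (S ∩ Z) + (wt D JA + wt D TA) + (wt D JB + wt D TB) := by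
    have hJT : ∀ (X J T : Finset V) (p : ℝ), J = (S ∩ X).filter (fun x => D {x} ≤ p) →
        T = (S ∩ X).filter (fun x => p < D {x}) → wt D J + wt D T = wt D (S ∩ X) := by
      intro X J T p h2 h3
      unfold wt
      rw [h2, h3]
      have : (S ∩ X).filter (fun x => p < D {x}) = (S ∩ X).filter (fun x => ¬ D {x} ≤ p) := by
        apply Finset.filter_congr
        intro x _
        rw [not_le]
      rw [this]
      exact Finset.sum_filter_add_sum_filter_not _ _ _
    rw [hJT A JA TA pA hJA hTA, hJT B JB TB pB hJB hTB]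
    have hU : S = (S ∩ Z) ∪ (S ∩ A) ∪ (S ∩ B) := by
      ext x
      have := @hS x
      simp only [mem_union, mem_inter] at this ⊢
      tauto
    have g1 : Disjoint (S ∩ Z) (S ∩ A) :=
      Finset.disjoint_of_subset_left Finset.inter_subset_right
        (Finset.disjoint_of_subset_right Finset.inter_subset_right dZA)
    have g2 : Disjoint ((S ∩ Z) ∪ (S ∩ A)) (S ∩ B) := by
      rw [Finset.disjoint_union_left]
      exact ⟨Finset.disjoint_of_subset_left Finset.inter_subset_right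
        (Finset.disjoint_of_subset_right Finset.inter_subset_right dZB),
        Finset.disjoint_of_subset_left Finset.inter_subset_right
        (Finset.disjoint_of_subset_right Finset.inter_subset_right dAB)⟩
    unfold wt
    rw [← Finset.sum_union g1, ← Finset.sum_union g2, ← hU]
  have wA : wt DA (low Z A pA D S) / mA = wt D (S ∩ Z) / (μA + μB) + wt D JA / μA := by
    rw [cl_wt_low dZA hpA0 hRA S, ← hJA, ← hprA]
    field_simp
  have wB : wt DB (low Z B pB D S) / mB = wt D (S ∩ Z) / (μA + μB) + wt D JB / μB := by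
    rw [cl_wt_low dZB hpB0 hRB S, ← hJB, ← hprB]
    field_simp
  have pay := clean_sum hr dZA dZB dAB hπ hD hRA hRB hS hJA hTA hJB hTB
  have oA := cl_Om_run' (H := H) (r := r) A S hpA0 h1 hD hcA
  have oB := cl_Om_run' (H := H) (r := r) B S hpB0 h1 hD hcB
  rw [← hTA] at oA
  rw [← hTB] at oB
  obtain ⟨E1, hE1⟩ : ∃ E, E = ∑ e ∈ (powersetCard r ((S ∩ Z) ∪ ((JA ∪ JB) ∪ (TA ∪ TB)))).filter
          (fun e => ¬ Disjoint e (S ∩ Z) ∧ ¬ Disjoint e (TA ∪ TB)), D e := ⟨_, rfl⟩
  obtain ⟨E2, hE2⟩ : ∃ E, E = ∑ e ∈ (powersetCard r (JA ∪ TA)).filter (fun e => ¬ Disjoint e TA),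
    D e := ⟨_, rfl⟩
  obtain ⟨E3, hE3⟩ : ∃ E, E = ∑ e ∈ (powersetCard r (JB ∪ TB)).filter (fun e => ¬ Disjoint e TB),
    D e := ⟨_, rfl⟩
  rw [← hE1, ← hE2, ← hE3] at pay stat
  obtain ⟨P, hP⟩ : ∃ E, E = ∑ e ∈ powersetCard r S, D e := ⟨_, rfl⟩
  obtain ⟨PX, hPX⟩ : ∃ E, E = ∑ e ∈ powersetCard r S,
    (if e ⊆ A ∪ B ∧ ¬ e ⊆ A ∧ ¬ e ⊆ B then D e else 0) := ⟨_, rfl⟩
  obtain ⟨PA, hPA⟩ : ∃ E, E = ∑ e ∈ powersetCard r (low Z A pA D S), DA e := ⟨_, rfl⟩
  obtain ⟨PB, hPB⟩ : ∃ E, E = ∑ e ∈ powersetCard r (low Z B pB D S), DB e := ⟨_, rfl⟩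
  rw [← hP, ← hPX, ← hPA, ← hPB] at pay
  obtain ⟨QA, hQA⟩ : ∃ E, E = ∑ x ∈ TA, (A.card.choose r : ℝ) / A.card * D {x} := ⟨_, rfl⟩
  obtain ⟨QB, hQB⟩ : ∃ E, E = ∑ x ∈ TB, (B.card.choose r : ℝ) / B.card * D {x} := ⟨_, rfl⟩
  rw [← hQA] at stat oA
  rw [← hQB] at stat oB
  have hwZ := cl_wt_nonneg hD (S ∩ Z)
  have key := cl_integ hF hr (TA := TA) (TB := TB) (m := μA + μB) (μA := μA) (μB := μB)
    (aS := wt D S / (μA + μB))
    (aA := wt D (S ∩ Z) / (μA + μB) + wt D JA / μA)
    (aB := wt D (S ∩ Z) / (μA + μB) + wt D JB / μB)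
    (cA := pA / A.card) (cB := pB / B.card) (gA := fun x => A.card * D {x} / pA)
    (gB := fun x => B.card * D {x} / pB)
    (K := P - PX - pA * PA - pB * PB - QA - QB) h0 h1
    (div_nonneg (cl_wt_nonneg hD S) hμ0.le)
    (add_nonneg (div_nonneg hwZ hμ0.le) (div_nonneg (cl_wt_nonneg hD JA) hμA.le))
    (add_nonneg (div_nonneg hwZ hμ0.le) (div_nonneg (cl_wt_nonneg hD JB) hμB.le))
    (fun x _ => div_nonneg (mul_nonneg (Nat.cast_nonneg _) (hD.pos _).le) hpA0.le)
    (fun x _ => div_nonneg (mul_nonneg (Nat.cast_nonneg _) (hD.pos _).le) hpB0.le)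
    (by
      intro u hu hu1
      have h2 := stat u hu hu1
      rw [← wS] at h2
      have h3 : 0 < u := lt_of_lt_of_le h0 hu
      have h4 : u * (E1 + E2 + E3) ≤ u * (P - PX - pA * PA - pB * PB) := by
        apply mul_le_mul_of_nonneg_left _ h3.le
        linarith only [pay]
      linarith only [h2, h4])
  unfold Gap
  rw [cl_CC_run hS t D, cl_cross_run A B S t D]
  rw [cl_CC_run (U := Z ∪ A) (S := low Z A pA D S) (by
      intro x hx
      rw [cl_mem_low] at hx
      rw [mem_union]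
      tauto) t DA]
  rw [cl_CC_run (U := Z ∪ B) (S := low Z B pB D S) (by
      intro x hx
      rw [cl_mem_low] at hx
      rw [mem_union]
      tauto) t DB]
  rw [← hP, ← hPX, ← hPA, ← hPB, mul_div_assoc t (wt D S), mul_div_assoc t (wt DA _),
    mul_div_assoc t (wt DB _), wA, wB]
  have f1 : pA * (CC r (Z ∪ A) DA + (1 - t) * PA - (YA + mA *
      (hh H (wt D (S ∩ Z) / (μA + μB) + wt D JA / μA) -
        hh H (t * (wt D (S ∩ Z) / (μA + μB) + wt D JA / μA))))) =
      pA * (CC r (Z ∪ A) DA - YA) + (1 - t) * (pA * PA) - μA *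
      (hh H (wt D (S ∩ Z) / (μA + μB) + wt D JA / μA) -
        hh H (t * (wt D (S ∩ Z) / (μA + μB) + wt D JA / μA))) := by
    rw [← hprA]; ring
  have f2 : pB * (CC r (Z ∪ B) DB + (1 - t) * PB - (YB + mB *
      (hh H (wt D (S ∩ Z) / (μA + μB) + wt D JB / μB) -
        hh H (t * (wt D (S ∩ Z) / (μA + μB) + wt D JB / μB))))) =
      pB * (CC r (Z ∪ B) DB - YB) + (1 - t) * (pB * PB) - μB *
      (hh H (wt D (S ∩ Z) / (μA + μB) + wt D JB / μB) -
        hh H (t * (wt D (S ∩ Z) / (μA + μB) + wt D JB / μB))) := by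
    rw [← hprB]; ring
  rw [f1, f2]
  linarith only [key, oA, oB]

end Pool.Agent.H12.Mader
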