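import Mathlib
import Pool.Agent.H12.Mader.EvA
import Pool.Agent.H12.Mader.Clean

set_option autoImplicit false

/-!
# The evolution theorem, from the inequality for clean pieces
-/

namespace Pool.Agent.H12.Mader

open Finset

variable {V : Type} [DecidableEq V] {r N : ℕ} {H : ℝ → ℝ}

/-- The vertices of `X` whose weight crosses the level `p` when it is multiplied by `t`. -/
noncomputable def cr (X : Finset V) (p : ℝ) (D : Finset V → ℝ) (t : ℝ) : Finset V :=
  X.filter (fun x => t * D {x} < p ∧ p < D {x})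

theorem cr_first {X : Finset V} {p : ℝ} {D : Finset V → ℝ} {t t' : ℝ}
    (hD : ∀ e, 0 < D e) (h : t ≤ t') : cr X p D t' ⊆ cr X p D t := by
  intro x hx
  unfold cr at hx ⊢
  rw [mem_filter] at hx ⊢
  exact ⟨hx.1, lt_of_le_of_lt (mul_le_mul_of_nonneg_right h (hD _).le) hx.2.1, hx.2.2⟩

theorem cr_second {X S : Finset V} (hX : X ⊆ S) {p : ℝ} {D : Finset V → ℝ} {t t' : ℝ}
    (hD : ∀ e, 0 < D e) (h0 : 0 < t') (h1 : t' ≤ 1) :
    cr X p (run S t' D) (t / t') ⊆ cr X p D t := by
  intro x hx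
  unfold cr run at hx
  unfold cr
  rw [mem_filter] at hx ⊢
  obtain ⟨h2, h3, h4⟩ := hx
  rw [if_pos (singleton_subset_iff.2 (hX h2))] at h3 h4
  refine ⟨h2, ?_, ?_⟩
  · have : t / t' * (t' * D {x}) = t * D {x} := by field_simp
    rwa [this] at h3
  · exact lt_of_lt_of_le h4 (mul_le_of_le_one_left (hD _).le h1)

theorem not_mem_cr_first {X : Finset V} {p : ℝ} {D : Finset V → ℝ} {t' : ℝ} {x : V}
    (h : t' * D {x} = p) : x ∉ cr X p D t' := by
  unfold cr
  rw [mem_filter]
  rintro ⟨_, h1, _⟩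
  exact absurd h h1.ne

theorem not_mem_cr_second {X S : Finset V} (hX : X ⊆ S) {p : ℝ} {D : Finset V → ℝ} {t t' : ℝ}
    {x : V} (h : t' * D {x} = p) : x ∉ cr X p (run S t' D) (t / t') := by
  unfold cr run
  rw [mem_filter]
  rintro ⟨h2, _, h1⟩
  rw [if_pos (singleton_subset_iff.2 (hX h2))] at h1
  exact absurd h h1.ne'

theorem card_cr_first {X : Finset V} {p : ℝ} {D : Finset V → ℝ} {t t' : ℝ}
    (hD : ∀ e, 0 < D e) (h : t ≤ t') {x : V} (hx : x ∈ cr X p D t) (hx' : t' * D {x} = p) :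
    (cr X p D t').card < (cr X p D t).card :=
  card_lt_card ((ssubset_iff_of_subset (cr_first hD h)).2 ⟨x, hx, not_mem_cr_first hx'⟩)

theorem card_cr_second {X S : Finset V} (hX : X ⊆ S) {p : ℝ} {D : Finset V → ℝ} {t t' : ℝ}
    (hD : ∀ e, 0 < D e) (h0 : 0 < t') (h1 : t' ≤ 1) {x : V} (hx : x ∈ cr X p D t)
    (hx' : t' * D {x} = p) :
    (cr X p (run S t' D) (t / t')).card < (cr X p D t).card :=
  card_lt_card ((ssubset_iff_of_subset (cr_second hX hD h0 h1)).2
    ⟨x, hx, not_mem_cr_second hX hx'⟩)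

theorem run_run {S : Finset V} {t t' : ℝ} (h0 : 0 < t') (D : Finset V → ℝ) :
    run S (t / t') (run S t' D) = run S t D := by
  funext e
  unfold run
  by_cases he : e ⊆ S
  · rw [if_pos he, if_pos he, if_pos he]
    field_simp
  · rw [if_neg he, if_neg he, if_neg he]

theorem wt_run {S : Finset V} {t' : ℝ} (D : Finset V → ℝ) :
    wt (run S t' D) S = t' * wt D S := by
  unfold wt run
  rw [mul_sum]
  apply sum_congr rfl
  intro x hx
  rw [if_pos (singleton_subset_iff.2 hx)]

/-- One step of the parent, cut at the crossings. -/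
theorem evolve_piece (hF : Fn r N H) (hr : 3 ≤ r) {Z A B : Finset V} (dZA : Disjoint Z A)
    (dZB : Disjoint Z B) (dAB : Disjoint A B) (hA : A.Nonempty) (hB : B.Nonempty)
    (hN : Z.card + A.card + B.card ≤ N) {μA μB : ℝ} (hμA : 0 < μA) (hμB : 0 < μB)
    (hμ : 1 ≤ μA + μB) {S : Finset V} (hS : S ⊆ Z ∪ A ∪ B) (n : ℕ) :
    ∀ (D DA DB : Finset V → ℝ) (Y YA YB t : ℝ), State D →
    Reach (hh H) (max 1 μA) (Z ∪ A) DA YA → Reach (hh H) (max 1 μB) (Z ∪ B) DB YB →
    Rel Z A (min 1 μA) (max 1 μA / (μA + μB)) D DA →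
    Rel Z B (min 1 μB) (max 1 μB / (μA + μB)) D DB → 0 < t → t ≤ 1 →
    (cr (S ∩ A) (min 1 μA) D t).card + (cr (S ∩ B) (min 1 μB) D t).card ≤ n →
    ∃ (DA' : Finset V → ℝ) (YA' : ℝ) (DB' : Finset V → ℝ) (YB' : ℝ),
      Reach (hh H) (max 1 μA) (Z ∪ A) DA' YA' ∧ Reach (hh H) (max 1 μB) (Z ∪ B) DB' YB' ∧
      Rel Z A (min 1 μA) (max 1 μA / (μA + μB)) (run S t D) DA' ∧
      Rel Z B (min 1 μB) (max 1 μB / (μA + μB)) (run S t D) DB' ∧
      Gap H r Z A B (min 1 μA) (min 1 μB) D Y DA YA DB YB ≤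
      Gap H r Z A B (min 1 μA) (min 1 μB) (run S t D)
        (Y + (μA + μB) * (hh H (wt D S / (μA + μB)) - hh H (t * wt D S / (μA + μB))))
        DA' YA' DB' YB' := by
  have hpA : 0 < min 1 μA := lt_min one_pos hμA
  have hpB : 0 < min 1 μB := lt_min one_pos hμB
  have hpA1 : min 1 μA ≤ 1 := min_le_left _ _
  have hpB1 : min 1 μB ≤ 1 := min_le_left _ _
  induction n with
  | zero =>
    intro D DA DB Y YA YB t hD hRA hRB rA rB h0 h1 hn
    have hn1 : (cr (S ∩ A) (min 1 μA) D t).card = 0 := by omega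
    have hn2 : (cr (S ∩ B) (min 1 μB) D t).card = 0 := by omega
    rw [card_eq_zero] at hn1 hn2
    have hcA : ∀ x ∈ S ∩ A, D {x} ≤ min 1 μA ∨ min 1 μA ≤ t * D {x} := by
      intro x hx
      by_contra hcon
      push Not at hcon
      have : x ∈ cr (S ∩ A) (min 1 μA) D t := by
        unfold cr
        rw [mem_filter]
        exact ⟨hx, hcon.2, hcon.1⟩
      rw [hn1] at this
      exact absurd this (notMem_empty x)
    have hcB : ∀ x ∈ S ∩ B, D {x} ≤ min 1 μB ∨ min 1 μB ≤ t * D {x} := by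
      intro x hx
      by_contra hcon
      push Not at hcon
      have : x ∈ cr (S ∩ B) (min 1 μB) D t := by
        unfold cr
        rw [mem_filter]
        exact ⟨hx, hcon.2, hcon.1⟩
      rw [hn2] at this
      exact absurd this (notMem_empty x)
    have hsubA : low Z A (min 1 μA) D S ⊆ Z ∪ A := by
      unfold low
      exact union_subset_union inter_subset_right ((filter_subset _ _).trans inter_subset_right)
    have hsubB : low Z B (min 1 μB) D S ⊆ Z ∪ B := by
      unfold low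
      exact union_subset_union inter_subset_right ((filter_subset _ _).trans inter_subset_right)
    exact ⟨_, _, _, _, Reach.step _ t hRA hsubA h0 h1, Reach.step _ t hRB hsubB h0 h1,
      Rel.step dZA hpA hpA1 hD hRA.state rA h0 h1 hcA,
      Rel.step dZB hpB hpB1 hD hRB.state rB h0 h1 hcB,
      clean_step hF hr dZA dZB dAB hA hB hN hμA hμB hμ hD hRA.state hRB.state rA rB hS h0 h1
        hcA hcB⟩
  | succ n ih =>
    intro D DA DB Y YA YB t hD hRA hRB rA rB h0 h1 hn
    by_cases hz : (cr (S ∩ A) (min 1 μA) D t).card + (cr (S ∩ B) (min 1 μB) D t).card ≤ n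
    · exact ih D DA DB Y YA YB t hD hRA hRB rA rB h0 h1 hz
    · -- a common statement for both sides
      have key : ∃ t' : ℝ, t ≤ t' ∧ 0 < t' ∧ t' ≤ 1 ∧
          (cr (S ∩ A) (min 1 μA) D t').card + (cr (S ∩ B) (min 1 μB) D t').card ≤ n ∧
          (cr (S ∩ A) (min 1 μA) (run S t' D) (t / t')).card +
            (cr (S ∩ B) (min 1 μB) (run S t' D) (t / t')).card ≤ n := by
        have hlev : ∀ (p : ℝ) (x : V), 0 < p → t * D {x} < p → p < D {x} →
            t ≤ p / D {x} ∧ 0 < p / D {x} ∧ p / D {x} ≤ 1 ∧ p / D {x} * D {x} = p := by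
          intro p x hp h2 h3
          have hx0 := hD.pos {x}
          refine ⟨?_, div_pos hp hx0, ?_, ?_⟩
          · rw [le_div_iff₀ hx0]; exact h2.le
          · rw [div_le_one hx0]; exact h3.le
          · field_simp
        by_cases hAe : (cr (S ∩ A) (min 1 μA) D t).card = 0
        · have hBe : 0 < (cr (S ∩ B) (min 1 μB) D t).card := by omega
          obtain ⟨x, hx⟩ := card_pos.1 hBe
          have hx2 := hx
          unfold cr at hx2
          rw [mem_filter] at hx2
          obtain ⟨k1, k2, k3, k4⟩ := hlev (min 1 μB) x hpB hx2.2.1 hx2.2.2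
          refine ⟨min 1 μB / D {x}, k1, k2, k3, ?_, ?_⟩
          · have e1 := card_le_card (cr_first (X := S ∩ A) (p := min 1 μA) hD.pos k1)
            have e2 := card_cr_first hD.pos k1 hx k4
            omega
          · have e1 := card_le_card (cr_second (X := S ∩ A) (p := min 1 μA) (t := t)
              inter_subset_left hD.pos k2 k3)
            have e2 := card_cr_second (S := S) inter_subset_left hD.pos k2 k3 hx k4
            omega
        · have hBe : 0 < (cr (S ∩ A) (min 1 μA) D t).card := by omega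
          obtain ⟨x, hx⟩ := card_pos.1 hBe
          have hx2 := hx
          unfold cr at hx2
          rw [mem_filter] at hx2
          obtain ⟨k1, k2, k3, k4⟩ := hlev (min 1 μA) x hpA hx2.2.1 hx2.2.2
          refine ⟨min 1 μA / D {x}, k1, k2, k3, ?_, ?_⟩
          · have e1 := card_le_card (cr_first (X := S ∩ B) (p := min 1 μB) hD.pos k1)
            have e2 := card_cr_first hD.pos k1 hx k4
            omega
          · have e1 := card_le_card (cr_second (X := S ∩ B) (p := min 1 μB) (t := t)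
              inter_subset_left hD.pos k2 k3)
            have e2 := card_cr_second (S := S) inter_subset_left hD.pos k2 k3 hx k4
            omega
      obtain ⟨t', k1, k2, k3, k4, k5⟩ := key
      obtain ⟨DA1, YA1, DB1, YB1, q1, q2, q3, q4, q5⟩ :=
        ih D DA DB Y YA YB t' hD hRA hRB rA rB k2 k3 k4
      obtain ⟨DA2, YA2, DB2, YB2, w1, w2, w3, w4, w5⟩ :=
        ih (run S t' D) DA1 DB1
          (Y + (μA + μB) * (hh H (wt D S / (μA + μB)) - hh H (t' * wt D S / (μA + μB))))
          YA1 YB1 (t / t') (hD.run k2 k3) q1 q2 q3 q4 (div_pos h0 k2)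
          ((div_le_one k2).2 k1) k5
      rw [run_run k2] at w3 w4 w5
      refine ⟨DA2, YA2, DB2, YB2, w1, w2, w3, w4, (q5.trans w5).trans (le_of_eq ?_)⟩
      congr 1
      rw [wt_run]
      have e1 : t / t' * (t' * wt D S) = t * wt D S := by field_simp
      rw [e1]
      ring

/-- The evolution theorem. -/
theorem evolve (hF : Fn r N H) (hr : 3 ≤ r) {Z A B : Finset V} (dZA : Disjoint Z A)
    (dZB : Disjoint Z B) (dAB : Disjoint A B) (hA : A.Nonempty) (hB : B.Nonempty)
    (hN : Z.card + A.card + B.card ≤ N) {μA μB : ℝ} (hμA : 0 < μA) (hμB : 0 < μB)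
    (hμ : 1 ≤ μA + μB) {D : Finset V → ℝ} {Y : ℝ}
    (hR : Reach (hh H) (μA + μB) (Z ∪ A ∪ B) D Y) :
    ∃ (DA : Finset V → ℝ) (YA : ℝ) (DB : Finset V → ℝ) (YB : ℝ),
      Reach (hh H) (max 1 μA) (Z ∪ A) DA YA ∧ Reach (hh H) (max 1 μB) (Z ∪ B) DB YB ∧
      Rel Z A (min 1 μA) (max 1 μA / (μA + μB)) D DA ∧
      Rel Z B (min 1 μB) (max 1 μB / (μA + μB)) D DB ∧
      Gap H r Z A B (min 1 μA) (min 1 μB) (fun _ => 1) 0
        (run Z (max 1 μA / (μA + μB)) (fun _ => 1))
        (0 + max 1 μA * (hh H (wt (fun _ => 1) Z / max 1 μA) -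
          hh H (max 1 μA / (μA + μB) * wt (fun _ => 1) Z / max 1 μA)))
        (run Z (max 1 μB / (μA + μB)) (fun _ => 1))
        (0 + max 1 μB * (hh H (wt (fun _ => 1) Z / max 1 μB) -
          hh H (max 1 μB / (μA + μB) * wt (fun _ => 1) Z / max 1 μB))) ≤
      Gap H r Z A B (min 1 μA) (min 1 μB) D Y DA YA DB YB := by
  have hM : 0 < μA + μB := add_pos hμA hμB
  have hpA : 0 < min 1 μA := lt_min one_pos hμA
  have hpB : 0 < min 1 μB := lt_min one_pos hμB
  have hpA1 : min 1 μA ≤ 1 := min_le_left _ _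
  have hpB1 : min 1 μB ≤ 1 := min_le_left _ _
  have hMA : 0 < max 1 μA := lt_of_lt_of_le one_pos (le_max_left _ _)
  have hMB : 0 < max 1 μB := lt_of_lt_of_le one_pos (le_max_left _ _)
  have hπA : 0 < max 1 μA / (μA + μB) := div_pos hMA hM
  have hπB : 0 < max 1 μB / (μA + μB) := div_pos hMB hM
  have hπA1 : max 1 μA / (μA + μB) ≤ 1 := by
    rw [div_le_one hM]
    exact max_le hμ (by linarith)
  have hπB1 : max 1 μB / (μA + μB) ≤ 1 := by
    rw [div_le_one hM]
    exact max_le hμ (by linarith)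
  induction hR with
  | init =>
    exact ⟨_, _, _, _, Reach.step Z _ Reach.init subset_union_left hπA hπA1,
      Reach.step Z _ Reach.init subset_union_left hπB hπB1,
      Rel.init dZA hpA hpA1 hπA hπA1, Rel.init dZB hpB hpB1 hπB hπB1, le_rfl⟩
  | step S t hR' hS h0 h1 ih =>
    obtain ⟨DA, YA, DB, YB, q1, q2, q3, q4, q5⟩ := ih
    obtain ⟨DA2, YA2, DB2, YB2, w1, w2, w3, w4, w5⟩ :=
      evolve_piece hF hr dZA dZB dAB hA hB hN hμA hμB hμ hS _ _ DA DB _ YA YB t hR'.state
        q1 q2 q3 q4 h0 h1 le_rfl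
    exact ⟨DA2, YA2, DB2, YB2, w1, w2, w3, w4, q5.trans w5⟩

end Pool.Agent.H12.Mader
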