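import Mathlib
import Pool.Agent.H53.Mader.Basic
import Pool.Agent.H12.Mader.Defs

set_option autoImplicit false

namespace Pool.Agent.H12.Mader

open Finset
open Pool.Agent.H53.Mader

variable {V : Type} [DecidableEq V] {r N : ℕ} {H : ℝ → ℝ}

/-- The non-edges inside `S`. -/
def ne (E : Finset (Finset V)) (r : ℕ) (S : Finset V) : Finset (Finset V) :=
  (powersetCard r S).filter (fun e => e ∉ E)

/-- `R(S; D) = C(m, r) - ∑ D e` over the non-edges, where `m` is the given number. -/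
noncomputable def RR (E : Finset (Finset V)) (r m : ℕ) (S : Finset V) (D : Finset V → ℝ) : ℝ :=
  (m.choose r : ℝ) - ∑ e ∈ ne E r S, D e

theorem mem_ne {E : Finset (Finset V)} {S e : Finset V} :
    e ∈ ne E r S ↔ (e ⊆ S ∧ e.card = r) ∧ e ∉ E := by
  unfold ne
  rw [mem_filter, mem_powersetCard]

theorem mem_cross {A B e : Finset V} :
    e ∈ cross r A B ↔ (e ⊆ A ∪ B ∧ e.card = r) ∧ ¬ e ⊆ A ∧ ¬ e ⊆ B := by
  unfold cross
  rw [mem_filter, mem_powersetCard]

/-- Number of `r`-sets of a disjoint union. -/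
theorem card_cross (hr : 1 ≤ r) {A B : Finset V} (dAB : Disjoint A B) :
    (A.card + B.card).choose r = A.card.choose r + B.card.choose r + (cross r A B).card := by
  have h1 : powersetCard r (A ∪ B) = powersetCard r A ∪ powersetCard r B ∪ cross r A B := by
    ext e
    rw [mem_union, mem_union, mem_cross, mem_powersetCard, mem_powersetCard, mem_powersetCard]
    constructor
    · rintro ⟨h1, h2⟩
      by_cases hA : e ⊆ A
      · exact Or.inl (Or.inl ⟨hA, h2⟩)
      by_cases hB : e ⊆ B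
      · exact Or.inl (Or.inr ⟨hB, h2⟩)
      exact Or.inr ⟨⟨h1, h2⟩, hA, hB⟩
    · rintro ((⟨h1, h2⟩ | ⟨h1, h2⟩) | ⟨h1, -⟩)
      · exact ⟨h1.trans subset_union_left, h2⟩
      · exact ⟨h1.trans subset_union_right, h2⟩
      · exact h1
  have d1 : Disjoint (powersetCard r A) (powersetCard r B) := by
    rw [disjoint_left]
    intro e he he'
    rw [mem_powersetCard] at he he'
    have hne : e.Nonempty := by
      rw [← card_pos, he.2]; omega
    obtain ⟨x, hx⟩ := hne
    exact disjoint_left.1 dAB (he.1 hx) (he'.1 hx)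
  have d2 : Disjoint (powersetCard r A ∪ powersetCard r B) (cross r A B) := by
    rw [disjoint_left]
    intro e he he'
    rw [mem_union, mem_powersetCard, mem_powersetCard] at he
    rw [mem_cross] at he'
    rcases he with he | he
    · exact he'.2.1 he.1
    · exact he'.2.2 he.1
  have h2 := congrArg Finset.card h1
  rw [card_powersetCard, card_union_of_disjoint dAB, card_union_of_disjoint d2,
    card_union_of_disjoint d1, card_powersetCard, card_powersetCard] at h2
  exact h2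

/-- One side: the non-edges of `Z ∪ X`. -/
theorem flow_side {E : Finset (Finset V)} {Z X : Finset V} {p π : ℝ}
    {D D' : Finset V → ℝ} (hR : Rel Z X p π D D') :
    p * ∑ e ∈ ne E r (Z ∪ X), D' e ≤
      (∑ e ∈ (ne E r (Z ∪ X)).filter (fun e => ¬ e ⊆ Z), D e) +
        p * π * ∑ e ∈ ne E r Z, D e := by
  have h1 : (ne E r (Z ∪ X)).filter (fun e => e ⊆ Z) = ne E r Z := by
    ext e
    rw [mem_filter, mem_ne, mem_ne]
    constructor
    · rintro ⟨⟨⟨h1, h2⟩, h3⟩, h4⟩
      exact ⟨⟨h4, h2⟩, h3⟩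
    · rintro ⟨⟨h1, h2⟩, h3⟩
      exact ⟨⟨⟨h1.trans subset_union_left, h2⟩, h3⟩, h1⟩
  have h2 : ∑ e ∈ ne E r (Z ∪ X), D' e = (∑ e ∈ ne E r Z, D' e) +
      ∑ e ∈ (ne E r (Z ∪ X)).filter (fun e => ¬ e ⊆ Z), D' e := by
    rw [← h1]
    exact (sum_filter_add_sum_filter_not _ _ _).symm
  have h3 : ∑ e ∈ ne E r Z, D' e = π * ∑ e ∈ ne E r Z, D e := by
    rw [mul_sum]
    apply sum_congr rfl
    intro e he
    rw [mem_ne] at he
    exact hR.z e he.1.1
  have h4 : p * ∑ e ∈ (ne E r (Z ∪ X)).filter (fun e => ¬ e ⊆ Z), D' e ≤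
      ∑ e ∈ (ne E r (Z ∪ X)).filter (fun e => ¬ e ⊆ Z), D e := by
    rw [mul_sum]
    apply sum_le_sum
    intro e he
    rw [mem_filter, mem_ne] at he
    exact hR.le e he.1.1.1 he.2
  rw [h2, h3]
  linarith

/-- Flow inequality: one separation. -/
theorem flow {E : Finset (Finset V)} {k : ℕ} {S Z A B : Finset V} (hs : Sep E k S Z A B)
    (hr : 3 ≤ r) {pA pB πA πB : ℝ} (hpA : 0 < pA) (hpB : 0 < pB)
    (hsum : pA * πA + pB * πB = 1) {D DA DB : Finset V → ℝ} (hD : State D)
    (hRA : Rel Z A pA πA D DA) (hRB : Rel Z B pB πB D DB) :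
    RR E r (A.card + B.card) S D ≤ ∑ e ∈ cross r A B, (1 - D e) +
      ((1 - pA) * (A.card.choose r : ℝ) + pA * RR E r A.card (Z ∪ A) DA) +
      ((1 - pB) * (B.card.choose r : ℝ) + pB * RR E r B.card (Z ∪ B) DB) := by
  have hA := flow_side (r := r) (E := E) hRA
  have hB := flow_side (r := r) (E := E) hRB
  have hc : ((A.card + B.card).choose r : ℝ) = (A.card.choose r : ℝ) + (B.card.choose r : ℝ) +
      ((cross r A B).card : ℝ) := by
    exact_mod_cast card_cross (by omega) hs.dAB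
  have hcr : ∑ e ∈ cross r A B, (1 - D e) = ((cross r A B).card : ℝ) -
      ∑ e ∈ cross r A B, D e := by
    rw [sum_sub_distrib, sum_const, nsmul_eq_mul, mul_one]
  -- the four disjoint families of non-edges of `S`
  have eA : ∀ e : Finset V, e ⊆ A ∪ B → e ⊆ Z ∪ A → e ⊆ A := by
    intro e h1 h2 x hx
    have hx1 := h1 hx
    have hx2 := h2 hx
    rw [mem_union] at hx1 hx2
    rcases hx2 with hx2 | hx2
    · rcases hx1 with hx1 | hx1
      · exact hx1
      · exact absurd hx1 (disjoint_left.1 hs.dZB hx2)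
    · exact hx2
  have eB : ∀ e : Finset V, e ⊆ A ∪ B → e ⊆ Z ∪ B → e ⊆ B := by
    intro e h1 h2 x hx
    have hx1 := h1 hx
    have hx2 := h2 hx
    rw [mem_union] at hx1 hx2
    rcases hx2 with hx2 | hx2
    · rcases hx1 with hx1 | hx1
      · exact absurd hx1 (disjoint_left.1 hs.dZA hx2)
      · exact hx1
    · exact hx2
  have eZ : ∀ e : Finset V, e ⊆ Z ∪ A → e ⊆ Z ∪ B → e ⊆ Z := by
    intro e h1 h2 x hx
    have hx1 := h1 hx
    have hx2 := h2 hx
    rw [mem_union] at hx1 hx2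
    rcases hx2 with hx2 | hx2
    · exact hx2
    · rcases hx1 with hx1 | hx1
      · exact hx1
      · exact absurd hx2 (disjoint_left.1 hs.dAB hx1)
  have d1 : Disjoint (cross r A B) ((ne E r (Z ∪ A)).filter (fun e => ¬ e ⊆ Z)) := by
    rw [disjoint_left]
    intro e he he'
    rw [mem_cross] at he
    rw [mem_filter, mem_ne] at he'
    exact he.2.1 (eA e he.1.1 he'.1.1.1)
  have d2 : Disjoint (cross r A B ∪ (ne E r (Z ∪ A)).filter (fun e => ¬ e ⊆ Z))
      ((ne E r (Z ∪ B)).filter (fun e => ¬ e ⊆ Z)) := by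
    rw [disjoint_left]
    intro e he he'
    rw [mem_union, mem_cross, mem_filter, mem_ne] at he
    rw [mem_filter, mem_ne] at he'
    rcases he with he | he
    · exact he.2.2 (eB e he.1.1 he'.1.1.1)
    · exact he.2 (eZ e he.1.1.1 he'.1.1.1)
  have d3 : Disjoint (cross r A B ∪ (ne E r (Z ∪ A)).filter (fun e => ¬ e ⊆ Z) ∪
      (ne E r (Z ∪ B)).filter (fun e => ¬ e ⊆ Z)) (ne E r Z) := by
    rw [disjoint_left]
    intro e he he'
    rw [mem_union, mem_union, mem_cross, mem_filter, mem_filter] at he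
    rw [mem_ne] at he'
    rcases he with (he | he) | he
    · exact he.2.1 (eA e he.1.1 (he'.1.1.trans subset_union_left))
    · exact he.2 he'.1.1
    · exact he.2 he'.1.1
  have hsub : cross r A B ∪ (ne E r (Z ∪ A)).filter (fun e => ¬ e ⊆ Z) ∪
      (ne E r (Z ∪ B)).filter (fun e => ¬ e ⊆ Z) ∪ ne E r Z ⊆ ne E r S := by
    intro e he
    rw [mem_union, mem_union, mem_union, mem_cross, mem_filter, mem_filter, mem_ne, mem_ne,
      mem_ne] at he
    rw [mem_ne]
    rcases he with ((he | he) | he) | he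
    · refine ⟨⟨he.1.1.trans hs.subAB, he.1.2⟩, ?_⟩
      intro hE
      rcases hs.cross e hE he.1.1 with h1 | h1
      · exact he.2.1 h1
      · exact he.2.2 h1
    · exact ⟨⟨he.1.1.1.trans hs.subZA, he.1.1.2⟩, he.1.2⟩
    · exact ⟨⟨he.1.1.1.trans hs.subZB, he.1.1.2⟩, he.1.2⟩
    · exact ⟨⟨he.1.1.trans hs.subZ, he.1.2⟩, he.2⟩
  have hle : ∑ e ∈ cross r A B, D e + ∑ e ∈ (ne E r (Z ∪ A)).filter (fun e => ¬ e ⊆ Z), D e +
      ∑ e ∈ (ne E r (Z ∪ B)).filter (fun e => ¬ e ⊆ Z), D e + ∑ e ∈ ne E r Z, D e ≤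
      ∑ e ∈ ne E r S, D e := by
    rw [← sum_union d1, ← sum_union d2, ← sum_union d3]
    exact sum_le_sum_of_subset_of_nonneg hsub (fun e _ _ => (hD.pos e).le)
  have hz : pA * πA * ∑ e ∈ ne E r Z, D e + pB * πB * ∑ e ∈ ne E r Z, D e =
      ∑ e ∈ ne E r Z, D e := by
    rw [← add_mul, hsum, one_mul]
  unfold RR
  rw [hc, hcr]
  linarith

end Pool.Agent.H12.Mader
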