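import Mathlib
import Pool.Agent.H12.Mader.Defs
import Pool.Agent.H12.Mader.Fn2
import Pool.Agent.H12.Mader.ZLem
import Pool.Agent.H12.Mader.EvA

set_option autoImplicit false

namespace Pool.Agent.H12.Mader

open Finset

variable {V : Type} [DecidableEq V] {r N : ℕ} {H : ℝ → ℝ}

theorem Reach.subset_sum {U S : Finset V} (hS : S ⊆ U) (f : Finset V → ℝ) :
    ∑ e ∈ powersetCard r U, (if e ⊆ S then f e else 0) = ∑ e ∈ powersetCard r S, f e := by
  rw [← Finset.sum_filter]
  apply Finset.sum_congr _ (fun _ _ => rfl)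
  ext e
  rw [mem_filter, mem_powersetCard, mem_powersetCard]
  constructor
  · rintro ⟨⟨_, h2⟩, h3⟩
    exact ⟨h3, h2⟩
  · rintro ⟨h1, h2⟩
    exact ⟨⟨h1.trans hS, h2⟩, h1⟩

theorem CC_run {U S : Finset V} (hS : S ⊆ U) (t : ℝ) (D : Finset V → ℝ) :
    CC r U (run S t D) = CC r U D + (1 - t) * ∑ e ∈ powersetCard r S, D e := by
  unfold CC
  rw [← Reach.subset_sum hS, Finset.mul_sum, ← Finset.sum_add_distrib]
  apply Finset.sum_congr rfl
  intro e _
  unfold run
  by_cases he : e ⊆ S
  · rw [if_pos he, if_pos he]; ring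
  · rw [if_neg he, if_neg he]; ring

/-- The accumulated cost is at most the total cost. -/
theorem Reach.leaf (hF : Fn r N H) (hr : 3 ≤ r) {M : ℝ} (hM : 1 ≤ M) {U : Finset V}
    (hU : U.card ≤ N) {D : Finset V → ℝ} {Y : ℝ} (hR : Reach (hh H) M U D Y) :
    Y ≤ CC r U D := by
  induction hR with
  | init => simp [CC]
  | @step D Y S t hR hS h0 h1 ih =>
    have hD : State D := hR.state
    have hy : 0 ≤ wt D S := Finset.sum_nonneg (fun x _ => (hD.pos {x}).le)
    have hMp : 0 < M := by linarith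
    have h2 : hh H (wt D S / M) - hh H (t * wt D S / M) ≤ (1 - t) * H (wt D S / M) := by
      have := hh_diff_le hF hr (div_nonneg hy hMp.le) h0 h1
      rwa [← mul_div_assoc] at this
    have h3 : H (wt D S / M) ≤ 1 / M * H (wt D S) := by
      have := hF.scale hr (t := 1 / M) (by positivity) (by rw [div_le_one hMp]; exact hM) hy
      rwa [one_div_mul_eq_div] at this
    have h4 : H (wt D S) ≤ ∑ e ∈ powersetCard r S, D e :=
      leaf_lem hF hr ((card_le_card hS).trans hU) (fun e => (hD.pos e).le) hD.le_one hD.mono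
    rw [CC_run hS]
    have h5 : M * (hh H (wt D S / M) - hh H (t * wt D S / M)) ≤ (1 - t) * H (wt D S) := by
      calc M * (hh H (wt D S / M) - hh H (t * wt D S / M)) ≤ M * ((1 - t) * H (wt D S / M)) := by gcongr
        _ ≤ M * ((1 - t) * (1 / M * H (wt D S))) := by
            have : 0 ≤ 1 - t := by linarith
            gcongr
        _ = (1 - t) * H (wt D S) := by field_simp
    have h6 : (1 - t) * H (wt D S) ≤ (1 - t) * ∑ e ∈ powersetCard r S, D e := by
      have : 0 ≤ 1 - t := by linarith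
      gcongr
    linarith

theorem om_nonneg (hF : Fn r N H) (hr : 3 ≤ r) {s : ℕ} (hs : 1 ≤ s) (hN : s ≤ N) {p : ℝ}
    (hp : 0 < p) (u : ℝ) : 0 ≤ om H r s p u := by
  unfold om
  split_ifs with hu
  · have hs0 : (0 : ℝ) < s := by exact_mod_cast hs
    apply div_nonneg _ hs0.le
    have h1 : (s : ℝ) ≤ s * u / p := by
      rw [le_div_iff₀ hp]
      gcongr
    have h2 := hh_sub_ge hF hr hs0 h1
    have h3 : p * (H s / s * (s * u / p - s)) ≤ p * (hh H (s * u / p) - hh H s) := by gcongr
    have h4 : p * (H s / s * (s * u / p - s)) = H s * (u - p) := by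
      field_simp
    rw [h4, hF.nat s hN] at h3
    linarith
  · exact le_rfl

theorem Om_nonneg (hF : Fn r N H) (hr : 3 ≤ r) {X : Finset V} (hX : X.Nonempty)
    (hN : X.card ≤ N) {p : ℝ} (hp : 0 < p) (D : Finset V → ℝ) : 0 ≤ Om H r X p D := by
  apply Finset.sum_nonneg
  intro x _
  exact om_nonneg hF hr (card_pos.2 hX) hN hp _

theorem Om_one {X : Finset V} (hX : X.Nonempty) {p : ℝ} (hp1 : p ≤ 1) :
    Om H r X p (fun _ => 1) =
      p * (hh H (X.card / p) - hh H X.card) - (1 - p) * (X.card.choose r : ℝ) := by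
  have hs0 : (0 : ℝ) < X.card := by exact_mod_cast card_pos.2 hX
  unfold Om om
  simp only []
  rw [if_pos hp1, Finset.sum_const, nsmul_eq_mul]
  field_simp

theorem CC_one (U : Finset V) : CC r U (fun _ => 1) = 0 := by
  simp [CC]

theorem CC_run_one {Z U : Finset V} (hZ : Z ⊆ U) (t : ℝ) :
    CC r U (run Z t (fun _ => 1)) = (1 - t) * (Z.card.choose r : ℝ) := by
  rw [CC_run hZ, CC_one]
  simp

/-- The initial gap. -/
theorem Gap_init {Z A B : Finset V} {μA μB : ℝ}
    (hμA : 0 < μA) (hμB : 0 < μB) (hA : A.Nonempty) (hB : B.Nonempty) :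
    Gap H r Z A B (min 1 μA) (min 1 μB) (fun _ => 1) 0
        (run Z (max 1 μA / (μA + μB)) (fun _ => 1))
        (0 + max 1 μA * (hh H (wt (fun _ => 1) Z / max 1 μA) -
          hh H (max 1 μA / (μA + μB) * wt (fun _ => 1) Z / max 1 μA)))
        (run Z (max 1 μB / (μA + μB)) (fun _ => 1))
        (0 + max 1 μB * (hh H (wt (fun _ => 1) Z / max 1 μB) -
          hh H (max 1 μB / (μA + μB) * wt (fun _ => 1) Z / max 1 μB))) =
      - (min 1 μA * ((1 - max 1 μA / (μA + μB)) * (Z.card.choose r : ℝ)) -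
          μA * (hh H (Z.card / max 1 μA) - hh H (Z.card / (μA + μB))) +
          min 1 μA * (hh H (A.card / min 1 μA) - hh H A.card) -
          (1 - min 1 μA) * (A.card.choose r : ℝ)) -
      (min 1 μB * ((1 - max 1 μB / (μA + μB)) * (Z.card.choose r : ℝ)) -
          μB * (hh H (Z.card / max 1 μB) - hh H (Z.card / (μA + μB))) +
          min 1 μB * (hh H (B.card / min 1 μB) - hh H B.card) -
          (1 - min 1 μB) * (B.card.choose r : ℝ)) := by
  have hw : wt (fun _ : Finset V => (1 : ℝ)) Z = Z.card := by simp [wt]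
  have hMA : 0 < max 1 μA := lt_of_lt_of_le one_pos (le_max_left _ _)
  have hMB : 0 < max 1 μB := lt_of_lt_of_le one_pos (le_max_left _ _)
  have hμ : 0 < μA + μB := by linarith
  have e1 : max 1 μA / (μA + μB) * (Z.card : ℝ) / max 1 μA = Z.card / (μA + μB) := by
    field_simp
  have e2 : max 1 μB / (μA + μB) * (Z.card : ℝ) / max 1 μB = Z.card / (μA + μB) := by
    field_simp
  have e3 : min 1 μA * max 1 μA = μA := by rw [min_mul_max, one_mul]
  have e4 : min 1 μB * max 1 μB = μB := by rw [min_mul_max, one_mul]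
  unfold Gap
  rw [hw, e1, e2, CC_one, CC_run_one subset_union_left, CC_run_one subset_union_left,
    Om_one hA (min_le_left _ _), Om_one hB (min_le_left _ _)]
  simp only [sub_self, Finset.sum_const_zero, zero_add]
  have e5 : ∀ c d : ℝ, min 1 μA * (c - max 1 μA * d) = min 1 μA * c - μA * d := by
    intro c d
    rw [mul_sub, ← mul_assoc, e3]
  have e6 : ∀ c d : ℝ, min 1 μB * (c - max 1 μB * d) = min 1 μB * c - μB * d := by
    intro c d
    rw [mul_sub, ← mul_assoc, e4]
  rw [e5, e6]
  ring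

end Pool.Agent.H12.Mader
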