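import Mathlib
import Pool.Agent.H53.Mader.Basic
import Pool.Agent.H12.Mader.EvB
import Pool.Agent.H12.Mader.Flow
import Pool.Agent.H12.Mader.Leaf

set_option autoImplicit false

namespace Pool.Agent.H12.Mader

open Finset
open Pool.Agent.H53.Mader

variable {V : Type} [DecidableEq V] {r N : ℕ} {H : ℝ → ℝ}

/-- One step of the induction, for arbitrary bounds `KA`, `KB` of the children. -/
theorem one_step (hF : Fn r N H) (hr : 3 ≤ r) {E : Finset (Finset V)} {k : ℕ} {S Z A B : Finset V}
    (hs : Sep E k S Z A B) (hN : S.card ≤ N) {μA μB : ℝ} (hμA : 0 < μA) (hμB : 0 < μB)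
    (hμ : 1 ≤ μA + μB) {D : Finset V → ℝ} {Y : ℝ} (hR : Reach (hh H) (μA + μB) S D Y)
    {KA KB : ℝ}
    (hKA : ∀ (D' : Finset V → ℝ) (Y' : ℝ), Reach (hh H) (max 1 μA) (Z ∪ A) D' Y' →
      RR E r A.card (Z ∪ A) D' ≤ CC r (Z ∪ A) D' + KA - Y')
    (hKB : ∀ (D' : Finset V → ℝ) (Y' : ℝ), Reach (hh H) (max 1 μB) (Z ∪ B) D' Y' →
      RR E r B.card (Z ∪ B) D' ≤ CC r (Z ∪ B) D' + KB - Y') :
    RR E r (A.card + B.card) S D ≤ CC r S D - Y +
      (min 1 μA * KA + min 1 μA * ((1 - max 1 μA / (μA + μB)) * (k.choose r : ℝ)) -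
          μA * (hh H (k / max 1 μA) - hh H (k / (μA + μB))) +
          min 1 μA * (hh H (A.card / min 1 μA) - hh H A.card)) +
      (min 1 μB * KB + min 1 μB * ((1 - max 1 μB / (μA + μB)) * (k.choose r : ℝ)) -
          μB * (hh H (k / max 1 μB) - hh H (k / (μA + μB))) +
          min 1 μB * (hh H (B.card / min 1 μB) - hh H B.card)) := by
  have hcard := hs.card
  have hpA : 0 < min 1 μA := lt_min one_pos hμA
  have hpB : 0 < min 1 μB := lt_min one_pos hμB
  have e3 : min 1 μA * max 1 μA = μA := by rw [min_mul_max, one_mul]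
  have e4 : min 1 μB * max 1 μB = μB := by rw [min_mul_max, one_mul]
  have hμp : 0 < μA + μB := by linarith
  have hsum : min 1 μA * (max 1 μA / (μA + μB)) + min 1 μB * (max 1 μB / (μA + μB)) = 1 := by
    rw [← mul_div_assoc, ← mul_div_assoc, e3, e4, ← add_div, div_self hμp.ne']
  have hZk := hs.cardZ
  have hN' : Z.card + A.card + B.card ≤ N := by omega
  have hD : State D := hR.state
  rw [hs.union] at hR
  obtain ⟨DA, YA, DB, YB, hRA, hRB, hrA, hrB, hgap⟩ :=
    evolve hF hr hs.dZA hs.dZB hs.dAB hs.neA hs.neB hN' hμA hμB hμ hR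
  rw [Gap_init hμA hμB hs.neA hs.neB, hZk] at hgap
  have h1 := flow (r := r) hs hr hpA hpB hsum hD hrA hrB
  have h2 := mul_le_mul_of_nonneg_left (hKA DA YA hRA) hpA.le
  have h3 := mul_le_mul_of_nonneg_left (hKB DB YB hRB) hpB.le
  have h4 := Om_nonneg hF hr hs.neA (by omega) hpA D
  have h5 := Om_nonneg hF hr hs.neB (by omega) hpB D
  unfold Gap at hgap
  rw [← hs.union] at hgap
  linarith

/-- (SM). -/
theorem sm (hF : Fn r N H) (hr : 3 ≤ r) {E : Finset (Finset V)} {k : ℕ} {U : Finset V}
    (hU : U.card ≤ N) (hG : Good E k U) : ∀ m : ℕ, ∀ S ⊆ U, S.card = k + m →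
      ∀ (D : Finset V → ℝ) (Y : ℝ), Reach (hh H) 1 S D Y →
        RR E r m S D ≤ CC r S D + hh H m - Y := by
  intro m
  induction m using Nat.strong_induction_on with
  | _ m ih =>
    intro S hS hcard D Y hR
    have hSN : S.card ≤ N := (card_le_card hS).trans hU
    by_cases hm : m ≤ 1
    · have h1 := hR.leaf hF hr le_rfl hSN
      have h2 : hh H m = 0 := by
        apply hh_zero hF (Nat.cast_nonneg m)
        have : (m : ℝ) ≤ 1 := by exact_mod_cast hm
        have : (3 : ℝ) ≤ r := by exact_mod_cast hr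
        linarith
      have h3 : m.choose r = 0 := Nat.choose_eq_zero_of_lt (by omega)
      have h4 : 0 ≤ ∑ e ∈ ne E r S, D e := Finset.sum_nonneg (fun e _ => (hR.state.pos e).le)
      unfold RR
      rw [h3, h2]
      push_cast
      linarith
    · push Not at hm
      obtain ⟨Z, A, B, hs⟩ := hG S hS (by omega)
      have h1 := hs.card
      have hA1 := card_pos.2 hs.neA
      have hB1 := card_pos.2 hs.neB
      have hab : A.card + B.card = m := by omega
      have hm0 : (0 : ℝ) < m := by exact_mod_cast (by omega : 0 < m)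
      have hA0 : (0 : ℝ) < A.card := by exact_mod_cast hA1
      have hB0 : (0 : ℝ) < B.card := by exact_mod_cast hB1
      have habr : (A.card : ℝ) + B.card = m := by exact_mod_cast hab
      have hμA : 0 < (A.card : ℝ) / m := div_pos hA0 hm0
      have hμB : 0 < (B.card : ℝ) / m := div_pos hB0 hm0
      have hμ : (A.card : ℝ) / m + B.card / m = 1 := by
        rw [← add_div, habr, div_self hm0.ne']
      have hA2 : (A.card : ℝ) / m ≤ 1 := by linarith
      have hB2 : (B.card : ℝ) / m ≤ 1 := by linarith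
      have hMA : max 1 ((A.card : ℝ) / m) = 1 := max_eq_left hA2
      have hMB : max 1 ((B.card : ℝ) / m) = 1 := max_eq_left hB2
      have hmA : min 1 ((A.card : ℝ) / m) = A.card / m := min_eq_right hA2
      have hmB : min 1 ((B.card : ℝ) / m) = B.card / m := min_eq_right hB2
      have key := one_step hF hr hs hSN hμA hμB hμ.ge (D := D) (Y := Y) (by rw [hμ]; exact hR)
        (KA := hh H A.card) (KB := hh H B.card)
        (by
          intro D' Y' hR'
          rw [hMA] at hR'
          exact ih A.card (by omega) (Z ∪ A) (hs.subZA.trans hS) hs.card_ZA D' Y' hR')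
        (by
          intro D' Y' hR'
          rw [hMB] at hR'
          exact ih B.card (by omega) (Z ∪ B) (hs.subZB.trans hS) hs.card_ZB D' Y' hR')
      rw [hMA, hMB, hmA, hmB, hμ, hab] at key
      have e1 : (A.card : ℝ) / (A.card / m) = m := by field_simp
      have e2 : (B.card : ℝ) / (B.card / m) = m := by field_simp
      rw [e1, e2] at key
      have e3 : (A.card : ℝ) / m * hh H m + (B.card : ℝ) / m * hh H m = hh H m := by
        rw [← add_mul, hμ, one_mul]
      simp only [div_one, sub_self, zero_mul, mul_zero, add_zero, sub_zero] at key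
      linarith

/-- The arithmetic of one side in (Prod). -/
theorem side_arith {k s : ℕ} (hk : 1 ≤ k) (hs : 1 ≤ s) {μ K : ℝ} (hμ : 0 < μ)
    (hK : K = if k ≤ s then (((s : ℝ) / k - 1) * (k.choose r : ℝ) +
      (s : ℝ) / k * hh H (k / ((s : ℝ) / k))) else hh H s) :
    min 1 ((s : ℝ) / k) * K +
        min 1 ((s : ℝ) / k) * ((1 - max 1 ((s : ℝ) / k) / μ) * (k.choose r : ℝ)) -
        (s : ℝ) / k * (hh H (k / max 1 ((s : ℝ) / k)) - hh H (k / μ)) +
        min 1 ((s : ℝ) / k) * (hh H (s / min 1 ((s : ℝ) / k)) - hh H s) =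
      ((s : ℝ) / k - (s : ℝ) / k / μ) * (k.choose r : ℝ) + (s : ℝ) / k * hh H (k / μ) := by
  have hk0 : (0 : ℝ) < k := by exact_mod_cast hk
  have hs0 : (0 : ℝ) < s := by exact_mod_cast hs
  rw [hK]
  split_ifs with h
  · have h1 : (1 : ℝ) ≤ (s : ℝ) / k := by
      rw [le_div_iff₀ hk0, one_mul]; exact_mod_cast h
    rw [min_eq_left h1, max_eq_right h1, div_one]
    ring
  · have h1 : (s : ℝ) / k ≤ 1 := by
      rw [div_le_one hk0]
      exact_mod_cast (by omega : s ≤ k)
    rw [min_eq_right h1, max_eq_left h1, div_one]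
    have e1 : (s : ℝ) / (s / k) = k := by field_simp
    rw [e1]
    ring

/-- (Prod). -/
theorem prod (hF : Fn r N H) (hr : 3 ≤ r) {E : Finset (Finset V)} {k : ℕ} (hk : 1 ≤ k)
    {U : Finset V} (hU : U.card ≤ N) (hG : Good E k U) : ∀ m : ℕ, k ≤ m → ∀ S ⊆ U,
      S.card = k + m → ∀ (D : Finset V → ℝ) (Y : ℝ), Reach (hh H) ((m : ℝ) / k) S D Y →
        RR E r m S D ≤ CC r S D + (((m : ℝ) / k - 1) * (k.choose r : ℝ) +
          (m : ℝ) / k * hh H (k / ((m : ℝ) / k))) - Y := by
  intro m
  induction m using Nat.strong_induction_on with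
  | _ m ih =>
    intro hkm S hS hcard D Y hR
    have hSN : S.card ≤ N := (card_le_card hS).trans hU
    have hk0 : (0 : ℝ) < k := by exact_mod_cast hk
    rcases Nat.lt_or_ge k m with hlt | hge
    · obtain ⟨Z, A, B, hs⟩ := hG S hS (by omega)
      have h1 := hs.card
      have hA1 := card_pos.2 hs.neA
      have hB1 := card_pos.2 hs.neB
      have hab : A.card + B.card = m := by omega
      have hm0 : (0 : ℝ) < m := by exact_mod_cast (by omega : 0 < m)
      have hA0 : (0 : ℝ) < A.card := by exact_mod_cast hA1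
      have hB0 : (0 : ℝ) < B.card := by exact_mod_cast hB1
      have habr : (A.card : ℝ) + B.card = m := by exact_mod_cast hab
      have hμA : 0 < (A.card : ℝ) / k := div_pos hA0 hk0
      have hμB : 0 < (B.card : ℝ) / k := div_pos hB0 hk0
      have hμ : (A.card : ℝ) / k + B.card / k = m / k := by
        rw [← add_div, habr]
      have hμ1 : (1 : ℝ) ≤ (A.card : ℝ) / k + B.card / k := by
        rw [hμ, le_div_iff₀ hk0, one_mul]
        exact_mod_cast hkm
      have child : ∀ X : Finset V, X.card < m → Z ∪ X ⊆ U → (Z ∪ X).card = k + X.card →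
          ∀ (D' : Finset V → ℝ) (Y' : ℝ), Reach (hh H) (max 1 ((X.card : ℝ) / k)) (Z ∪ X) D' Y' →
          RR E r X.card (Z ∪ X) D' ≤ CC r (Z ∪ X) D' +
            (if k ≤ X.card then (((X.card : ℝ) / k - 1) * (k.choose r : ℝ) +
              (X.card : ℝ) / k * hh H (k / ((X.card : ℝ) / k))) else hh H X.card) - Y' := by
        intro X hX hXU hXc D' Y' hR'
        split_ifs with h
        · have h1 : (1 : ℝ) ≤ (X.card : ℝ) / k := by
            rw [le_div_iff₀ hk0, one_mul]; exact_mod_cast h
          rw [max_eq_right h1] at hR'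
          exact ih X.card hX h (Z ∪ X) hXU hXc D' Y' hR'
        · have h1 : (X.card : ℝ) / k ≤ 1 := by
            rw [div_le_one hk0]
            exact_mod_cast (by omega : X.card ≤ k)
          rw [max_eq_left h1] at hR'
          exact sm hF hr hU hG X.card (Z ∪ X) hXU hXc D' Y' hR'
      have key := one_step hF hr hs hSN hμA hμB hμ1 (D := D) (Y := Y) (by rw [hμ]; exact hR)
        (child A (by omega) (hs.subZA.trans hS) hs.card_ZA)
        (child B (by omega) (hs.subZB.trans hS) hs.card_ZB)
      rw [side_arith hk hA1 (by linarith) rfl, side_arith hk hB1 (by linarith) rfl, hab] at key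
      have e1 : ((A.card : ℝ) / k - (A.card : ℝ) / k / (A.card / k + B.card / k)) +
          ((B.card : ℝ) / k - (B.card : ℝ) / k / (A.card / k + B.card / k)) = (m : ℝ) / k - 1 := by
        have h0 : (A.card : ℝ) / k + B.card / k ≠ 0 := by linarith
        have : (A.card : ℝ) / k / (A.card / k + B.card / k) +
            (B.card : ℝ) / k / (A.card / k + B.card / k) = 1 := by
          rw [← add_div, div_self h0]
        linarith
      have e2 : ((A.card : ℝ) / k - (A.card : ℝ) / k / (A.card / k + B.card / k)) *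
            (k.choose r : ℝ) + (A.card : ℝ) / k * hh H (k / (A.card / k + B.card / k)) +
          (((B.card : ℝ) / k - (B.card : ℝ) / k / (A.card / k + B.card / k)) *
            (k.choose r : ℝ) + (B.card : ℝ) / k * hh H (k / (A.card / k + B.card / k))) =
          ((m : ℝ) / k - 1) * (k.choose r : ℝ) + (m : ℝ) / k * hh H (k / ((m : ℝ) / k)) := by
        rw [← e1, ← hμ]
        ring
      linarith
    · have hmk : m = k := le_antisymm hge hkm
      subst hmk
      rw [div_self hk0.ne'] at hR ⊢
      have := sm hF hr hU hG m S hS hcard D Y hR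
      simpa using this

/-- Main theorem. -/
theorem main {k : ℕ} (hr : 3 ≤ r) (hrk : r ≤ k) (G : HG V) (hu : G.Uniform r)
    (hf : G.Free k) (hn : k * k ≤ (r - 1) * (G.verts.card - k)) :
    (G.edges.card : ℝ) ≤ (G.verts.card.choose r : ℝ) - ((G.verts.card - k).choose r : ℝ) +
      ((G.verts.card : ℝ) / k - 2) * (k.choose r : ℝ) := by
  obtain ⟨H, hF⟩ := exists_fn r G.verts.card hr
  have hk : 1 ≤ k := by omega
  have hk0 : (0 : ℝ) < k := by exact_mod_cast hk
  set m := G.verts.card - k with hm
  have hkm : k ≤ m := by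
    by_contra hlt
    push Not at hlt
    have h1 : (r - 1) * m ≤ (k - 1) * m := Nat.mul_le_mul_right _ (by omega)
    have h2 : (k - 1) * m ≤ (k - 1) * k := Nat.mul_le_mul_left _ hlt.le
    have h3 : (k - 1) * k < k * k := Nat.mul_lt_mul_of_pos_right (by omega) (by omega)
    omega
  have hcard : G.verts.card = k + m := by omega
  have key := prod hF hr hk le_rfl (good_of_free hf) m hkm G.verts subset_rfl hcard
    (fun _ => 1) 0 Reach.init
  have hm0 : (0 : ℝ) < m := by
    have : 0 < m := by omega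
    exact_mod_cast this
  have hz : hh H (k / ((m : ℝ) / k)) = 0 := by
    apply hh_zero hF (by positivity)
    rw [div_div_eq_mul_div, div_le_iff₀ hm0]
    have h1 : ((k * k : ℕ) : ℝ) ≤ (((r - 1) * m : ℕ) : ℝ) := by exact_mod_cast hn
    rw [Nat.cast_mul, Nat.cast_mul, Nat.cast_sub (by omega), Nat.cast_one] at h1
    exact h1
  rw [hz, CC_one] at key
  have hE := edges_card_eq hu
  have hN := EE_add_NN G.edges r G.verts
  have hNN : ∑ e ∈ ne G.edges r G.verts, (1 : ℝ) = (NN G.edges r G.verts : ℝ) := by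
    unfold ne NN
    simp
  have key2 : (m.choose r : ℝ) - (NN G.edges r G.verts : ℝ) ≤
      ((m : ℝ) / k - 1) * (k.choose r : ℝ) := by
    have : RR G.edges r m G.verts (fun _ => 1) =
        (m.choose r : ℝ) - (NN G.edges r G.verts : ℝ) := by
      unfold RR
      rw [hNN]
    linarith
  have hN' : (EE G.edges r G.verts : ℝ) + (NN G.edges r G.verts : ℝ) =
      (G.verts.card.choose r : ℝ) := by exact_mod_cast hN
  rw [hE]
  have h5 : (G.verts.card : ℝ) / k - 2 = (m : ℝ) / k - 1 := by
    rw [hcard]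
    push_cast
    field_simp
    ring
  rw [h5]
  linarith

end Pool.Agent.H12.Mader
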